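import Mathlib

/-!
# Chains of subgroups of virtually abelian groups
-/

set_option autoImplicit false

namespace Pool.Agent.Run7.h550.RV

/-- in a decreasing sequence of subgroups of a finitely generated abelian group some member has
finite index in its predecessor -/
lemma chain_comm {A : Type} [CommGroup A] (hfg : Group.FG A) (L : ℕ → Subgroup A)
    (hL : ∀ n, L (n + 1) ≤ L n) : ∃ n, (L (n + 1)).relIndex (L n) ≠ 0 := by
  have : Module.Finite ℤ (Additive A) := by
    exact Module.Finite.iff_addGroup_fg.2 inferInstance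
  let N : ℕ → Submodule ℤ (Additive A) := fun n =>
    AddSubgroup.toIntSubmodule (Subgroup.toAddSubgroup (L n))
  have hN : ∀ n, N (n + 1) ≤ N n := fun n => by
    intro x hx
    exact hL n hx
  have hf : ∀ n, Module.finrank ℤ (N (n + 1)) ≤ Module.finrank ℤ (N n) := fun n =>
    Submodule.finrank_mono (hN n)
  obtain ⟨n, hn⟩ : ∃ n, Module.finrank ℤ (N (n + 1)) = Module.finrank ℤ (N n) := by
    by_contra hcon
    push Not at hcon
    have h1 : ∀ n, Module.finrank ℤ (N n) + n ≤ Module.finrank ℤ (N 0) := by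
      intro n
      induction n with
      | zero => simp
      | succ n ih =>
        have := lt_of_le_of_ne (hf n) (hcon n)
        omega
    have := h1 (Module.finrank ℤ (N 0) + 1)
    omega
  refine ⟨n, ?_⟩
  let N' : Submodule ℤ (N n) := (N (n + 1)).submoduleOf (N n)
  have e1 : Module.finrank ℤ N' = Module.finrank ℤ (N (n + 1)) :=
    (Submodule.submoduleOfEquivOfLe (hN n)).finrank_eq
  have e2 := Submodule.finrank_quotient_add_finrank N'
  have e3 : Module.finrank ℤ (N n ⧸ N') = 0 := by omega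
  have e4 : Module.IsTorsion ℤ (N n ⧸ N') := Module.finrank_eq_zero_iff_isTorsion.1 e3
  have e5 : Finite (N n ⧸ N') := Module.finite_of_fg_torsion _ e4
  rw [← Subgroup.relIndex_toAddSubgroup]
  have e6 : N'.toAddSubgroup.index ≠ 0 := by
    have : Finite (N n ⧸ N'.toAddSubgroup) := e5
    exact AddSubgroup.index_ne_zero_of_finite
  exact e6

/-- a virtually finitely generated abelian group satisfies the chain condition -/
lemma chain_virt {G : Type} [Group G] {K A : Subgroup G} (hfg : A.FG)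
    (hcomm : ∀ x ∈ A, ∀ y ∈ A, x * y = y * x) (hind : A.relIndex K ≠ 0) (L : ℕ → Subgroup G)
    (hLK : ∀ n, L n ≤ K) (hL : ∀ n, L (n + 1) ≤ L n) : ∃ n, (L (n + 1)).relIndex (L n) ≠ 0 := by
  let _ : CommGroup A := { (inferInstance : Group A) with
    mul_comm := fun x y => Subtype.ext (hcomm x x.2 y y.2) }
  obtain ⟨n, hn⟩ := chain_comm (A := A) ((Group.fg_iff_subgroup_fg A).2 hfg)
    (fun n => (L n).subgroupOf A) (fun n x hx => hL n hx)
  refine ⟨n, ?_⟩
  -- `L (n + 1) ⊓ A` has finite index in `L n ⊓ A`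
  have h1 : (L (n + 1) ⊓ A).relIndex (L n ⊓ A) ≠ 0 := by
    have e1 : ∀ n, (L n).subgroupOf A = (L n ⊓ A).subgroupOf A := fun n =>
      (Subgroup.inf_subgroupOf_right _ _).symm
    rw [e1, e1, Subgroup.relIndex_subgroupOf inf_le_right] at hn
    exact hn
  have h2 : (L n ⊓ A).relIndex (L n) ≠ 0 := by
    rw [Subgroup.inf_relIndex_left]
    exact fun h0 => hind (Subgroup.relIndex_eq_zero_of_le_right (hLK n) h0)
  have h3 := Subgroup.relIndex_ne_zero_trans h1 h2
  exact fun h0 => h3 (Nat.eq_zero_of_zero_dvd (h0 ▸ Subgroup.relIndex_dvd_of_le_left _ inf_le_left))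

open scoped Pointwise

/-- the group has a finitely generated abelian subgroup of finite index -/
def VA {G : Type} [Group G] (L : Subgroup G) : Prop :=
  ∃ A : Subgroup G, A ≤ L ∧ A.FG ∧ (∀ x ∈ A, ∀ y ∈ A, x * y = y * x) ∧ A.relIndex L ≠ 0

lemma map_fg {G H : Type*} [Group G] [Group H] {K : Subgroup G} (h : K.FG) (f : G →* H) :
    (K.map f).FG := by
  classical
  obtain ⟨S, hS⟩ := h
  refine ⟨S.image f, ?_⟩
  rw [Finset.coe_image, ← MonoidHom.map_closure, hS]

lemma fg_inf {G : Type} [Group G] {A L : Subgroup G} (hfg : A.FG)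
    (hcomm : ∀ x ∈ A, ∀ y ∈ A, x * y = y * x) : (L ⊓ A).FG := by
  let _ : CommGroup A := { (inferInstance : Group A) with
    mul_comm := fun x y => Subtype.ext (hcomm x x.2 y y.2) }
  have h1 : Group.FG A := (Group.fg_iff_subgroup_fg A).2 hfg
  have : Module.Finite ℤ (Additive A) := Module.Finite.iff_addGroup_fg.2 inferInstance
  have h2 : (L.subgroupOf A).FG := by
    rw [Subgroup.fg_iff_add_fg]
    have h3 : (AddSubgroup.toIntSubmodule (Subgroup.toAddSubgroup (L.subgroupOf A))).FG :=
      IsNoetherian.noetherian _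
    rw [Submodule.fg_iff_addSubgroup_fg] at h3
    exact h3
  have h4 := map_fg h2 A.subtype
  rwa [Subgroup.subgroupOf_map_subtype] at h4

lemma VA.mono {G : Type} [Group G] {L L' : Subgroup G} (h : VA L) (hle : L' ≤ L) : VA L' := by
  obtain ⟨A, hA, hfg, hc, hi⟩ := h
  refine ⟨L' ⊓ A, inf_le_left, fg_inf hfg hc, fun x hx y hy => hc x hx.2 y hy.2, ?_⟩
  rw [Subgroup.inf_relIndex_left]
  exact fun h0 => hi (Subgroup.relIndex_eq_zero_of_le_right hle h0)

lemma VA.conj {G : Type} [Group G] {L : Subgroup G} (h : VA L) (u : G) :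
    VA (ConjAct.toConjAct u • L) := by
  obtain ⟨A, hA, hfg, hc, hi⟩ := h
  refine ⟨ConjAct.toConjAct u • A, Subgroup.pointwise_smul_le_pointwise_smul_iff.2 hA, ?_, ?_, ?_⟩
  · rw [Subgroup.pointwise_smul_def]
    exact map_fg hfg _
  · intro x hx y hy
    rw [Subgroup.mem_pointwise_smul_iff_inv_smul_mem] at hx hy
    have h1 := hc _ hx _ hy
    rw [← smul_mul', ← smul_mul'] at h1
    exact (MulAction.injective (ConjAct.toConjAct u)⁻¹) h1
  · rw [Subgroup.relIndex_pointwise_smul]
    exact hi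

lemma VA.chain {G : Type} [Group G] {K : Subgroup G} (h : VA K) (L : ℕ → Subgroup G)
    (h0 : L 0 ≤ K) (hL : ∀ n, L (n + 1) ≤ L n) : ∃ n, (L (n + 1)).relIndex (L n) ≠ 0 := by
  obtain ⟨A, hA, hfg, hc, hi⟩ := h
  refine chain_virt hfg hc hi L (fun n => ?_) hL
  induction n with
  | zero => exact h0
  | succ n ih => exact (hL n).trans ih

end Pool.Agent.Run7.h550.RV
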