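import Pool.Agent.T6.H46.RC.Cc
import Pool.Agent.T6.H46.RR.Split
import Pool.Agent.R632.CZ.Axes

/-!
# Finitely generated abelian subgroups are convex cocompact
-/

set_option autoImplicit false

open Metric Set Filter Topology
open Pool.Agent.TH60.FP Pool.Agent.TH60.FP.Strip Pool.Agent.Y34.HB Pool.Agent.Y34.EL
open Pool.Agent.Y155.HB
open Pool.Agent.T6.H46.RR Pool.Agent.T6.H46.RC

namespace Pool.Agent.Run7.h550.RV

variable {X : Type} [MetricSpace X] {G : Type} [Group G] [MulAction G X]

lemma sq_dist_eq {a b : ℝ} (ha : 0 ≤ a) (hb : 0 ≤ b) (h : a ^ 2 = b ^ 2) : a = b :=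
  (pow_left_inj₀ ha hb two_ne_zero).1 h

/-- two axes of `g` bound a flat strip, or they have the same points -/
lemma strip_ends [ProperSpace X] [IsIsometricSMul G X] (hX : CN X) {g : G} {τ : ℝ} (hτ : 0 < τ)
    {c c' : ℝ → X} (hc : Axis g τ c) (hc' : Axis g τ c') (hD : 0 < DD c c') :
    ∃ (S : ℝ → ℝ → X) (o : ℝ), Strip S (DD c c') ∧ (∀ t, S t 0 = c t) ∧
      (∀ t, S t (DD c c') = c' (t + o)) ∧
      ∀ t s, 0 ≤ s → s ≤ DD c c' → g • S t s = S (t + τ) s := by
  obtain ⟨d0, o, ho⟩ := (Pool.Agent.R632.CZ.dd X hX).1 c c' hc.1 hc'.1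
    (Pool.Agent.R632.CZ.Axis.par hτ hc hc')
  set d := DD c c' with hd
  set c2 : ℝ → X := fun t => c' (t + o) with hc2
  have hA : Axis g τ c2 := Pool.Agent.R632.CZ.Axis.shift hc' o
  have hdd : ∀ z w : ℝ, dist (c z) (c2 w) ^ 2 = d ^ 2 + dist z w ^ 2 := by
    intro z w
    rw [hc2, ho, Real.dist_eq, sq_abs]
    ring
  have hcl : ∀ s : ℝ, 0 ≤ max 0 (min 1 (s / d)) ∧ max 0 (min 1 (s / d)) ≤ 1 := fun s =>
    ⟨le_max_left _ _, max_le zero_le_one (min_le_left _ _)⟩
  choose P hP using fun (z s : ℝ) =>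
    dv_exists hX (c z) (c2 z) (max 0 (min 1 (s / d))) (hcl s).1 (hcl s).2
  have hin : ∀ s, 0 ≤ s → s ≤ d → max 0 (min 1 (s / d)) = s / d := by
    intro s h0 h1
    rw [min_eq_right ((div_le_one hD).2 h1), max_eq_right (by positivity)]
  have key : ∀ (z s : ℝ), 0 ≤ s → s ≤ d → ∀ x : X, dist x (P z s) ^ 2 ≤
      (1 - s / d) * dist x (c z) ^ 2 + s / d * dist x (c2 z) ^ 2 - s * (d - s) := by
    intro z s h0 h1 x
    have h2 := hP z s x
    rw [hin s h0 h1, hdd z z, dist_self] at h2
    have h4 : s / d * (1 - s / d) * (d ^ 2 + 0 ^ 2) = s * (d - s) := by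
      field_simp
      ring
    rw [h4] at h2
    exact h2
  have hfl := Pool.Agent.R632.CZ.slab_of hc.1 hA.1 hD hdd P key
  refine ⟨P, o, ?_, ?_, ?_, ?_⟩
  · intro t s t' s' h0 h1 h2 h3
    rw [hfl t t' s s' h0 h1 h2 h3, Real.dist_eq, sq_abs]
  · intro t
    have h1 := key t 0 le_rfl hD.le (c t)
    rw [dist_self] at h1
    have h2 : dist (c t) (P t 0) ^ 2 ≤ 0 := by
      calc dist (c t) (P t 0) ^ 2 ≤ _ := h1
        _ = 0 := by simp
    exact (dist_eq_zero.1 (pow_eq_zero_iff two_ne_zero |>.1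
      (le_antisymm h2 (sq_nonneg _)))).symm
  · intro t
    have h1 := key t d hD.le le_rfl (c2 t)
    rw [dist_self, div_self hD.ne'] at h1
    have h2 : dist (c2 t) (P t d) ^ 2 ≤ 0 := by
      calc dist (c2 t) (P t d) ^ 2 ≤ _ := h1
        _ = 0 := by simp
    exact (dist_eq_zero.1 (pow_eq_zero_iff two_ne_zero |>.1
      (le_antisymm h2 (sq_nonneg _)))).symm
  · intro t s h0 h1
    have h2 := Pool.Agent.R632.CZ.dv_smul (hP t s) g
    rw [hc.2, hA.2] at h2
    exact Pool.Agent.R632.CZ.dv_unique (hcl s).1 (hcl s).2 h2 (hP (t + τ) s)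

/-- the union of the axes of `g` which begin in `B` -/
def WW (g : G) (δ : ℝ) (B : Set X) : Set X :=
  {w | ∃ c : ℝ → X, Axis g δ c ∧ c 0 ∈ B ∧ ∃ t, c t = w}

/-- a set with all points between its points -/
def Cvx (B : Set X) : Prop := ∀ p ∈ B, ∀ q ∈ B, ∀ m, dist p m + dist m q = dist p q → m ∈ B

lemma between_line [ProperSpace X] (hX : CN X) {c : ℝ → X} (hc : Isometry c) {s t : ℝ} {m : X}
    (hm : dist (c s) m + dist m (c t) = dist (c s) (c t)) : ∃ r, c r = m := by
  have h0 := dist_nonneg (x := c s) (y := m)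
  have h1 := dist_nonneg (x := m) (y := c t)
  have hon : On (c s) (c t) (dist (c s) m) m := ⟨rfl, by linarith⟩
  have hst : dist (c s) (c t) = |s - t| := by rw [hc.dist_eq, Real.dist_eq]
  rcases le_total s t with h | h
  · refine ⟨s + dist (c s) m, on_uniq hX ?_ hon⟩
    rw [hst, abs_of_nonpos (by linarith)] at hm
    refine ⟨?_, ?_⟩
    · rw [hc.dist_eq, Real.dist_eq, show s - (s + dist (c s) m) = -dist (c s) m by ring, abs_neg,
        abs_of_nonneg h0]
    · rw [hst, hc.dist_eq, Real.dist_eq, abs_of_nonpos (by linarith : s - t ≤ 0),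
        abs_of_nonpos (by linarith)]
      ring
  · refine ⟨s - dist (c s) m, on_uniq hX ?_ hon⟩
    rw [hst, abs_of_nonneg (by linarith)] at hm
    refine ⟨?_, ?_⟩
    · rw [hc.dist_eq, Real.dist_eq, show s - (s - dist (c s) m) = dist (c s) m by ring,
        abs_of_nonneg h0]
    · rw [hst, hc.dist_eq, Real.dist_eq, abs_of_nonneg (by linarith : 0 ≤ s - t),
        abs_of_nonneg (by linarith)]
      ring

lemma WW_conv [ProperSpace X] [IsIsometricSMul G X] (hX : CN X) {g : G} {δ : ℝ} (hδ : 0 < δ)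
    {B : Set X} (hB : Cvx B) : Cvx (WW g δ B) := by
  rintro _ ⟨c, hc, hc0, s₁, rfl⟩ _ ⟨c', hc', hc'0, s₂, rfl⟩ m hm
  rcases eq_or_lt_of_le (show 0 ≤ DD c c' from infDist_nonneg) with hD | hD
  · obtain ⟨-, o, ho⟩ := (Pool.Agent.R632.CZ.dd X hX).1 c c' hc.1 hc'.1
      (Pool.Agent.R632.CZ.Axis.par hδ hc hc')
    have h1 : c (s₂ - o) = c' s₂ := by
      have := ho (s₂ - o) s₂
      rw [← hD] at this
      have e : dist (c (s₂ - o)) (c' s₂) ^ 2 = 0 := by rw [this]; ring
      exact dist_eq_zero.1 (pow_eq_zero_iff two_ne_zero |>.1 e)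
    rw [← h1] at hm
    obtain ⟨r, hr⟩ := between_line hX hc.1 hm
    exact ⟨c, hc, hc0, r, hr⟩
  · obtain ⟨S, o, hS, hS0, hS1, hSg⟩ := strip_ends hX hδ hc hc' hD
    set d := DD c c' with hd
    have hp : c s₁ = S s₁ 0 := (hS0 _).symm
    have hq : c' s₂ = S (s₂ - o) d := by rw [hS1, sub_add_cancel]
    have hx : c 0 = S 0 0 := (hS0 _).symm
    have hy : c' 0 = S (-o) d := by rw [hS1]; congr 1; ring
    set L := dist (c s₁) (c' s₂) with hL
    have hL2 : L ^ 2 = (s₁ - (s₂ - o)) ^ 2 + d ^ 2 := by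
      rw [hL, hp, hq, hS _ _ _ _ le_rfl hD.le hD.le le_rfl]; ring
    have hL0 : 0 < L := by
      have h1 : 0 < L ^ 2 := by rw [hL2]; positivity
      by_contra hcon
      have h2 : L = 0 := le_antisymm (not_lt.1 hcon) dist_nonneg
      rw [h2] at h1
      simp at h1
    set l := dist (c s₁) m / L with hl
    have hm0 := dist_nonneg (x := c s₁) (y := m)
    have hm1 := dist_nonneg (x := m) (y := c' s₂)
    have hl0 : 0 ≤ l := by positivity
    have hl1 : l ≤ 1 := by rw [hl, div_le_one hL0]; linarith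
    have hlL : l * L = dist (c s₁) m := by rw [hl, div_mul_cancel₀ _ hL0.ne']
    have hld0 : 0 ≤ l * d := by positivity
    have hld1 : l * d ≤ d := by nlinarith
    -- the point `m`
    have hmS : S (s₁ + l * (s₂ - o - s₁)) (l * d) = m := by
      refine on_uniq hX (o := c s₁) (p := c' s₂) (t := l * L) ⟨?_, ?_⟩ ⟨hlL.symm, by
        rw [hlL]; linarith⟩
      · refine sq_dist_eq dist_nonneg (by positivity) ?_
        rw [hp, hS _ _ _ _ le_rfl hD.le hld0 hld1]
        have : (l * L) ^ 2 = l ^ 2 * L ^ 2 := by ring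
        rw [this, hL2]; ring
      · refine sq_dist_eq dist_nonneg (by nlinarith) ?_
        rw [hq, hS _ _ _ _ hld0 hld1 hD.le le_rfl]
        have : (dist (c s₁) (S (s₂ - o) d) - l * L) ^ 2 = (1 - l) ^ 2 * L ^ 2 := by
          rw [← hq, ← hL]; ring
        rw [this, hL2]; ring
    -- the point of `B` below it
    have hz : S (-(l * o)) (l * d) ∈ B := by
      refine hB _ hc0 _ hc'0 _ ?_
      have e0 : dist (c 0) (c' 0) ^ 2 = o ^ 2 + d ^ 2 := by
        rw [hx, hy, hS _ _ _ _ le_rfl hD.le hD.le le_rfl]; ring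
      set E := dist (c 0) (c' 0) with hE
      have hE0 : 0 ≤ E := dist_nonneg
      have e1 : dist (c 0) (S (-(l * o)) (l * d)) = l * E := by
        refine sq_dist_eq dist_nonneg (by positivity) ?_
        rw [hx, hS _ _ _ _ le_rfl hD.le hld0 hld1]
        have : (l * E) ^ 2 = l ^ 2 * E ^ 2 := by ring
        rw [this, e0]; ring
      have e2 : dist (S (-(l * o)) (l * d)) (c' 0) = (1 - l) * E := by
        refine sq_dist_eq dist_nonneg (mul_nonneg (by linarith) hE0) ?_
        rw [hy, hS _ _ _ _ hld0 hld1 hD.le le_rfl]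
        have : ((1 - l) * E) ^ 2 = (1 - l) ^ 2 * E ^ 2 := by ring
        rw [this, e0]; ring
      rw [e1, e2]; ring
    refine ⟨fun t => S (t - l * o) (l * d), ⟨?_, fun t => ?_⟩, ?_, ?_⟩
    · refine Isometry.of_dist_eq fun t t' => ?_
      refine sq_dist_eq dist_nonneg dist_nonneg ?_
      rw [hS _ _ _ _ hld0 hld1 hld0 hld1, Real.dist_eq, sq_abs]
      ring
    · show g • S (t - l * o) (l * d) = S (t + δ - l * o) (l * d)
      rw [hSg _ _ hld0 hld1]
      congr 1; ring
    · show S (0 - l * o) (l * d) ∈ B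
      rwa [zero_sub]
    · refine ⟨s₁ + l * (s₂ - o - s₁) + l * o, ?_⟩
      show S (s₁ + l * (s₂ - o - s₁) + l * o - l * o) (l * d) = m
      rw [add_sub_cancel_right, hmS]

lemma closure_conv [ProperSpace X] (hX : CN X) {W : Set X} (hW : Cvx W) : Cvx (closure W) := by
  intro p hp q hq m hm
  rcases eq_or_lt_of_le (dist_nonneg (x := p) (y := q)) with h0 | h0
  · have h2 : dist p m = 0 := by
      have := dist_nonneg (x := p) (y := m)
      have := dist_nonneg (x := m) (y := q)
      linarith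
    rw [← dist_eq_zero.1 h2]; exact hp
  rw [Metric.mem_closure_iff] at hp hq ⊢
  intro ε hε
  obtain ⟨p', hp', hpp⟩ := hp ε hε
  obtain ⟨q', hq', hqq⟩ := hq ε hε
  set l := dist p m / dist p q with hl
  have hl0 : 0 ≤ l := by positivity
  have hl1 : l ≤ 1 := by
    rw [hl, div_le_one h0]
    have := dist_nonneg (x := m) (y := q)
    linarith
  have hlx : l * dist p q = dist p m := by rw [hl, div_mul_cancel₀ _ h0.ne']
  obtain ⟨w, hw⟩ := ex_on hX (o := p') (p := q') (t := l * dist p' q') (by positivity)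
    (by nlinarith [dist_nonneg (x := p') (y := q')])
  have h1 := (t_cmp X hX).2 p q p' q' l m w ⟨hlx.symm, by rw [hlx]; linarith⟩ hw hl0 hl1
  refine ⟨w, hW p' hp' q' hq' w (by rw [hw.1, hw.2]; ring), lt_of_le_of_lt h1 ?_⟩
  rcases eq_or_lt_of_le hl0 with h | h
  · rw [← h]; simpa using hpp
  · nlinarith

lemma inv_closure {S : Set G} {B : Set X} (h : ∀ g ∈ S, ∀ x ∈ B, g • x ∈ B ∧ g⁻¹ • x ∈ B) {g : G}
    (hg : g ∈ Subgroup.closure S) : ∀ x ∈ B, g • x ∈ B ∧ g⁻¹ • x ∈ B := by
  induction hg using Subgroup.closure_induction with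
  | mem x hx => exact h x hx
  | one => intro x hx; simp [hx]
  | mul a b _ _ ha hb =>
    intro x hx
    constructor
    · rw [mul_smul]; exact (ha _ (hb x hx).1).1
    · rw [mul_inv_rev, mul_smul]; exact (hb _ (ha x hx).2).2
  | inv a _ ha => intro x hx; rw [inv_inv]; exact (ha x hx).symm

lemma isMin_closed [IsIsometricSMul G X] (a : G) :
    IsClosed {x : X | Pool.Agent.T6.H46.RR.IsMin a x} := by
  have e : {x : X | Pool.Agent.T6.H46.RR.IsMin a x} =
      ⋂ z : X, {x | dist x (a • x) ≤ dist z (a • z)} := by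
    ext x
    simp only [mem_iInter]
    exact Iff.rfl
  rw [e]
  exact isClosed_iInter fun z => isClosed_le
    (continuous_id.dist (isometry_smul X a).continuous) continuous_const

/-- **finitely generated abelian subgroups are convex cocompact** -/
theorem exists_cc_comm (hG : Geo X G) (A : Subgroup G) (hfg : A.FG)
    (hcomm : ∀ a ∈ A, ∀ b ∈ A, a * b = b * a) (x₀ : X) : ∃ B : Set X, CC A B := by
  classical
  have := hG.isom
  have := hG.proper
  have hX := hG.cn
  obtain ⟨y, hy⟩ := exists_torus_point hG A hfg hcomm x₀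
  obtain ⟨F, hF⟩ := hfg
  have key : ∀ S : Finset G, (S : Set G) ⊆ A → ∃ B : Set X, CC (Subgroup.closure (S : Set G)) B ∧
      ∀ x ∈ B, ∀ a ∈ A, IsMin a x := by
    intro S
    induction S using Finset.induction_on with
    | empty =>
      intro _
      refine ⟨{y}, ⟨singleton_nonempty y, isClosed_singleton, ?_, ?_, {y}, isCompact_singleton,
        ?_⟩, ?_⟩
      · intro p hp q hq m hm
        rw [mem_singleton_iff] at hp hq ⊢
        rw [hp, hq, dist_self] at hm
        have h1 := dist_nonneg (x := y) (y := m)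
        have h2 := dist_nonneg (x := m) (y := y)
        exact (dist_eq_zero.1 (by linarith : dist y m = 0)).symm
      · intro g hg x hx
        rw [Finset.coe_empty, Subgroup.closure_empty, Subgroup.mem_bot] at hg
        rw [hg, one_smul]; exact hx
      · rintro x rfl
        exact ⟨1, Subgroup.one_mem _, by rw [one_smul]; rfl⟩
      · rintro x rfl
        exact hy
    | insert g S _ ih =>
      intro hS
      rw [Finset.coe_insert] at hS ⊢
      have hgA : g ∈ A := hS (mem_insert _ _)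
      have hSA : (S : Set G) ⊆ A := fun s hs => hS (mem_insert_of_mem _ hs)
      obtain ⟨B, hB, hBm⟩ := ih hSA
      have hA' : Subgroup.closure (S : Set G) ≤ A := (Subgroup.closure_le A).2 hSA
      have hle : Subgroup.closure (S : Set G) ≤ Subgroup.closure (insert g (S : Set G)) :=
        Subgroup.closure_mono (subset_insert _ _)
      have hgin : g ∈ Subgroup.closure (insert g (S : Set G)) :=
        Subgroup.subset_closure (mem_insert _ _)
      obtain ⟨o, ho⟩ := hB.ne
      set δ := dist o (g • o) with hδ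
      have hδ' : ∀ x ∈ B, dist x (g • x) = δ := fun x hx =>
        le_antisymm (hBm x hx g hgA o) (hBm o ho g hgA x)
      rcases eq_or_lt_of_le (show 0 ≤ δ from dist_nonneg) with h0 | h0
      · -- `g` fixes `B`
        have hfix : ∀ x ∈ B, g • x = x := fun x hx =>
          (dist_eq_zero.1 ((hδ' x hx).trans h0.symm)).symm
        refine ⟨B, ⟨hB.ne, hB.closed, hB.conv, ?_, ?_⟩, hBm⟩
        · intro k hk x hx
          refine (inv_closure ?_ hk x hx).1
          rintro s (rfl | hs) x hx
          · have e := hfix x hx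
            refine ⟨by rw [e]; exact hx, ?_⟩
            have e2 : s⁻¹ • x = x := by rw [inv_smul_eq_iff, e]
            rw [e2]; exact hx
          · have hs' := Subgroup.subset_closure hs
            exact ⟨hB.inv s hs' x hx, hB.inv _ (Subgroup.inv_mem _ hs') x hx⟩
        · obtain ⟨C, hC, hcov⟩ := hB.cc
          refine ⟨C, hC, fun x hx => ?_⟩
          obtain ⟨k, hk, hkx⟩ := hcov x hx
          exact ⟨k, hle hk, hkx⟩
      · -- the axes through the points of `B`
        set W := WW g δ B with hW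
        have hBW : B ⊆ W := by
          intro x hx
          have hx' : 0 < dist x (g • x) := by rw [hδ' x hx]; exact h0
          obtain ⟨c, hc, hc0⟩ := axis_through hX (hBm x hx g hgA) hx'
          rw [hδ' x hx] at hc
          exact ⟨c, hc, by rw [hc0]; exact hx, 0, hc0⟩
        have hWinv : ∀ s ∈ insert g (S : Set G), ∀ x ∈ W, s • x ∈ W ∧ s⁻¹ • x ∈ W := by
          rintro s (rfl | hs) _ ⟨c, hc, hc0, t, rfl⟩
          · refine ⟨⟨c, hc, hc0, t + δ, (hc.2 t).symm⟩, ⟨c, hc, hc0, t - δ, ?_⟩⟩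
            rw [eq_inv_smul_iff, hc.2, sub_add_cancel]
          · have hs' := Subgroup.subset_closure hs
            have hcs : Commute g s := hcomm g hgA s (hSA hs)
            refine ⟨⟨_, Pool.Agent.R632.CZ.Axis.move hc hcs, hB.inv s hs' _ hc0, t, rfl⟩,
              ⟨_, Pool.Agent.R632.CZ.Axis.move hc hcs.inv_right,
                hB.inv _ (Subgroup.inv_mem _ hs') _ hc0, t, rfl⟩⟩
        have hWm : ∀ x ∈ W, ∀ a ∈ A, IsMin a x := by
          rintro _ ⟨c, hc, hc0, t, rfl⟩ a ha
          have hca : Commute g a := hcomm g hgA a ha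
          have h1 := par_const hX hc.1 (Pool.Agent.R632.CZ.Axis.move hc hca).1
            (Pool.Agent.R632.CZ.Axis.par h0 hc (Pool.Agent.R632.CZ.Axis.move hc hca)) t
          intro z
          rw [h1]
          exact hBm _ hc0 a ha z
        refine ⟨closure W, ⟨⟨o, subset_closure (hBW ho)⟩, isClosed_closure,
          closure_conv hX (WW_conv hX h0 hB.conv), ?_, ?_⟩, ?_⟩
        · intro k hk x hx
          exact map_mem_closure (isometry_smul X k).continuous hx fun w hw =>
            (inv_closure hWinv hk w hw).1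
        · obtain ⟨D, hD0, hD⟩ := cc_near hG hB ho
          refine ⟨closedBall o (δ + D + 1), isCompact_closedBall _ _, fun x hx => ?_⟩
          obtain ⟨_, ⟨c, hc, hc0, t, rfl⟩, hxw⟩ := Metric.mem_closure_iff.1 hx 1 one_pos
          obtain ⟨a, ha, had⟩ := hD _ hc0
          set n : ℤ := ⌊t / δ⌋ with hn
          have h1 : (n : ℝ) * δ ≤ t := by
            rw [hn, ← le_div_iff₀ h0]
            exact Int.floor_le _
          have h2 : t ≤ (n + 1) * δ := by
            rw [hn, ← div_le_iff₀ h0]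
            exact (Int.lt_floor_add_one _).le
          refine ⟨a⁻¹ * g ^ (-n), Subgroup.mul_mem _ (Subgroup.inv_mem _ (hle ha))
            (Subgroup.zpow_mem _ hgin _), ?_⟩
          rw [mem_closedBall]
          have h3 : dist ((a⁻¹ * g ^ (-n)) • x) ((a⁻¹ * g ^ (-n)) • c t) < 1 := by
            rw [dist_smul]; exact hxw
          have h4 : (a⁻¹ * g ^ (-n)) • c t = a⁻¹ • c (t + ((-n : ℤ) : ℝ) * δ) := by
            rw [mul_smul, axis_zpow hc]
          have h5 : dist (a⁻¹ • c (t + ((-n : ℤ) : ℝ) * δ)) o ≤ δ + D := by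
            have e1 : dist (a⁻¹ • c (t + ((-n : ℤ) : ℝ) * δ)) o =
                dist (c (t + ((-n : ℤ) : ℝ) * δ)) (a • o) := by
              rw [← dist_smul a, smul_inv_smul]
            rw [e1]
            refine (dist_triangle _ (c 0) _).trans (add_le_add ?_ had)
            rw [hc.1.dist_eq, Real.dist_eq]
            push_cast
            rw [abs_of_nonneg (by linarith)]
            linarith
          have h6 := dist_triangle ((a⁻¹ * g ^ (-n)) • x) ((a⁻¹ * g ^ (-n)) • c t) o
          rw [h4] at h6 h3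
          linarith
        · intro x hx a ha
          exact (closure_minimal (fun w hw => hWm w hw a ha) (isMin_closed a)) hx
  obtain ⟨B, hB, -⟩ := key F (fun a ha => hF ▸ Subgroup.subset_closure ha)
  rw [hF] at hB
  exact ⟨B, hB⟩

lemma ph_sub_conv (hG : Geo X G) {K : Subgroup G} {B : Set X} (hB : CC K B) (h : G) {r : ℝ}
    {p q m : X} (hp : ph B h p ≤ r) (hq : ph B h q ≤ r) (hm : dist p m + dist m q = dist p q) :
    ph B h m ≤ r := by
  have := hG.isom
  have := hG.proper
  have h1 := ph_convex hG.cn hB h p q m hm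
  rcases eq_or_lt_of_le (dist_nonneg (x := p) (y := q)) with h0 | h0
  · have h2 : dist p m = 0 := by
      have := dist_nonneg (x := p) (y := m)
      have := dist_nonneg (x := m) (y := q)
      linarith
    rw [← dist_eq_zero.1 h2]; exact hp
  · have h2 : dist p q * ph B h m ≤ dist p q * r := by
      refine h1.trans ?_
      have e1 := mul_le_mul_of_nonneg_left hp (dist_nonneg (x := m) (y := q))
      have e2 := mul_le_mul_of_nonneg_left hq (dist_nonneg (x := p) (y := m))
      have e3 : dist p q * r = dist m q * r + dist p m * r := by rw [← hm]; ring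
      linarith
    exact le_of_mul_le_mul_left h2 h0

/-- a group with a convex cocompact subgroup of finite index is convex cocompact -/
theorem cc_finite (hG : Geo X G) {A K : Subgroup G} (hAK : A ≤ K) (hind : A.relIndex K ≠ 0)
    {B : Set X} (hB : CC A B) : ∃ B' : Set X, CC K B' := by
  classical
  have := hG.isom
  have := hG.proper
  obtain ⟨o, ho⟩ := hB.ne
  have : (A.subgroupOf K).FiniteIndex := ⟨hind⟩
  have : Finite (K ⧸ A.subgroupOf K) := Subgroup.finite_quotient_of_finiteIndex
  let F : K ⧸ A.subgroupOf K → ℝ := fun q => infDist (((q.out : K) : G)⁻¹ • o) B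
  obtain ⟨R, hR⟩ := (Set.finite_range F).bddAbove
  have ho' : ∀ k ∈ K, infDist (k • o) B ≤ R := by
    intro k hk
    let q : K ⧸ A.subgroupOf K := QuotientGroup.mk ((⟨k, hk⟩ : K)⁻¹)
    have h3 : q.out⁻¹ * (⟨k, hk⟩ : K)⁻¹ ∈ A.subgroupOf K := by
      rw [← QuotientGroup.eq]
      exact QuotientGroup.out_eq' q
    have h4 : (((q.out : K) : G)⁻¹ * k⁻¹) ∈ A := h3
    have h5 := A.inv_mem h4
    have h6 : k • o = (((q.out : K) : G)⁻¹ * k⁻¹)⁻¹ • ((q.out : K) : G)⁻¹ • o := by
      rw [smul_smul]; congr 1; group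
    rw [h6, infDist_inv hB h5]
    exact hR ⟨q, rfl⟩
  have hph : ∀ (k : G) (x : X), infDist (k • x) B = ph B k⁻¹ x := by
    intro k x; unfold ph; rw [inv_inv]
  refine ⟨{x | ∀ k ∈ K, infDist (k • x) B ≤ R}, ⟨o, ho'⟩, ?_, ?_, ?_, ?_⟩
  · have e : {x : X | ∀ k ∈ K, infDist (k • x) B ≤ R} =
        ⋂ k ∈ K, {x : X | infDist (k • x) B ≤ R} := by
      ext x; simp
    rw [e]
    exact isClosed_biInter fun k _ => isClosed_le
      ((continuous_infDist_pt B).comp (isometry_smul X k).continuous) continuous_const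
  · intro p hp q hq m hm k hk
    rw [hph]
    exact ph_sub_conv hG hB _ (by rw [← hph]; exact hp k hk) (by rw [← hph]; exact hq k hk) hm
  · intro k hk x hx k' hk'
    rw [smul_smul]
    exact hx _ (K.mul_mem hk' hk)
  · obtain ⟨D, hD0, hD⟩ := cc_near hG hB ho
    refine ⟨closedBall o (R + D), isCompact_closedBall _ _, fun x hx => ?_⟩
    have h1 := hx 1 K.one_mem
    rw [one_smul] at h1
    obtain ⟨z, hz, hz'⟩ := hB.closed.exists_infDist_eq_dist hB.ne x
    obtain ⟨a, ha, had⟩ := hD z hz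
    refine ⟨a⁻¹, K.inv_mem (hAK ha), ?_⟩
    rw [mem_closedBall, ← dist_smul a, smul_inv_smul]
    refine (dist_triangle x z _).trans (add_le_add ?_ had)
    rw [← hz']; exact h1

end Pool.Agent.Run7.h550.RV
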