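import Pool.Agent.Run7.h550.RV.Tree
import Pool.Agent.Run7.h550.RV.Flat
import Pool.Agent.T6.H46.RC.Fin

/-!
# Actions on trees with a segment whose stabiliser is virtually abelian
-/

set_option autoImplicit false

open Metric Set Filter Topology
open Pool.Agent.TH60.FP Pool.Agent.TH60.FP.Strip Pool.Agent.Y34.HB Pool.Agent.Y34.EL
open Pool.Agent.T6.H46.RR Pool.Agent.T6.H67.TA Pool.Agent.T6.H46.RC
open scoped Pointwise

namespace Pool.Agent.Run7.h550.RV

variable {X : Type} [MetricSpace X] {G : Type} [Group G] [MulAction G X]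

/-- a commensurated convex cocompact subgroup: `B` is near all its translates -/
lemma bd_of_comm (hG : Geo X G) {M : Subgroup G} {B : Set X} (hB : CC M B) (g : G)
    (hg : g ∈ Subgroup.Commensurable.commensurator M) : Bd B g := by
  classical
  have := hG.isom
  have := hG.proper
  obtain ⟨o, ho⟩ := hB.ne
  obtain ⟨D, hD0, hD⟩ := cc_near hG hB ho
  set N : Subgroup G := ConjAct.toConjAct g • M with hN
  have hI : (N.subgroupOf M).index ≠ 0 := hg.1
  have hmemN : ∀ s : G, s ∈ N ↔ g⁻¹ * s * g ∈ M := by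
    intro s
    rw [hN, Subgroup.mem_pointwise_smul_iff_inv_smul_mem, ← ConjAct.toConjAct_inv,
      ConjAct.toConjAct_smul, inv_inv]
  have : (N.subgroupOf M).FiniteIndex := ⟨hI⟩
  have : Finite (M ⧸ N.subgroupOf M) := Subgroup.finite_quotient_of_finiteIndex
  let F : M ⧸ N.subgroupOf M → ℝ := fun q => ph B g (((q.out : M) : G)⁻¹ • o)
  obtain ⟨R, hR⟩ := (Set.finite_range F).bddAbove
  refine ⟨R + D, fun x hx => ?_⟩
  obtain ⟨m, hm, hmx⟩ := hD x hx
  have h1 := ph_lip B g x (m • o)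
  have h2 : ph B g (m • o) ≤ R := by
    let q : M ⧸ N.subgroupOf M := QuotientGroup.mk ((⟨m, hm⟩ : M)⁻¹)
    have h3 : q.out⁻¹ * (⟨m, hm⟩ : M)⁻¹ ∈ N.subgroupOf M := by
      rw [← QuotientGroup.eq]
      exact QuotientGroup.out_eq' q
    have h4 : (((q.out : M) : G)⁻¹ * m⁻¹) ∈ N := h3
    have h5 := N.inv_mem h4
    have h6 : m • o = (((q.out : M) : G)⁻¹ * m⁻¹)⁻¹ • ((q.out : M) : G)⁻¹ • o := by
      rw [smul_smul]; congr 1; group
    rw [h6, ph_inv hB ((hmemN _).1 h5)]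
    exact hR ⟨q, rfl⟩
  rw [abs_le] at h1
  linarith

/-- an infinite group does not act properly on a point -/
lemma nontrivial_of_infinite (hG : Geo X G) {M : Subgroup G} {B : Set X} (hB : CC M B)
    (hM : ¬ (M : Set G).Finite) : Nontrivial B := by
  rw [Set.nontrivial_coe_sort]
  by_contra hcon
  rw [Set.not_nontrivial_iff] at hcon
  obtain ⟨x, hx⟩ := hB.ne
  refine hM ((finite_short hG x 0).subset fun s hs => ?_)
  have : s • x = x := hcon (hB.inv s hs x hx) hx
  rw [Set.mem_ofPred_eq, this, dist_self]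

variable {V : Type} {T : SimpleGraph V} (hT : T.IsTree) [MulAction G V]
  (hact : ∀ (g : G) (u v : V), T.Adj u v → T.Adj (g • u) (g • v))

include hT hact in
/-- **Main theorem** -/
theorem main (hG : Geo X G) (hGC : GC X) (x₀ : X) {K : Subgroup G}
    {a b : V} (hab : T.Adj a b) (hK : ∀ s : G, s ∈ K ↔ s • a = a ∧ s • b = b) {p q g₀ : G}
    (hp : Fac T a b p) (hq : Fac T b a q) (hV : VA (SS a b 1 g₀)) :
    (∃ g : G, RankOne X g) ∨
      ∃ (h : G) (B₀ : Set X), VA (SS a b 1 h) ∧ CC (SS a b 1 h) B₀ ∧ Nontrivial B₀ ∧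
      ∃ (Z : Type) (_ : MetricSpace Z) (_ : Nontrivial Z) (e : X ≃ Z × B₀),
      ∀ x x' : X, dist x x' ^ 2 = dist (e x).1 (e x').1 ^ 2 + dist (e x).2 (e x').2 ^ 2 := by
  have := hG.isom
  obtain ⟨c₀, hc₀, hVc⟩ := exists_start hT hact hab hp hq hV
  obtain ⟨h, hh, hR, hL, hVh⟩ := exists_minimal_segment hT hact hab hp hq hc₀ hVc
  have hcomm := comm_all hT hact hab hp hh hR hL
  set M := SS a b 1 h with hMdef
  by_cases hfin : (M : Set G).Finite
  · left
    obtain ⟨hax, hfix⟩ := coh_axis hT hact hab hh hh (g := 1) (one_smul _ _) (one_smul _ _)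
    refine ⟨_, rank_one_of_finite hT hact hG x₀ hax 2 (hfin.subset ?_)⟩
    rintro s ⟨e1, e2⟩
    obtain ⟨⟨x1, x2⟩, x3, x4, x5⟩ := hfix s e1 e2
    rw [SetLike.mem_coe, hMdef, mem_SS]
    rw [one_mul] at x4 x5
    exact ⟨⟨by rw [one_smul]; exact x1, by rw [one_smul]; exact x2⟩, x4, x5⟩
  · right
    obtain ⟨A, hAM, hfg, hc, hi⟩ := id hVh
    obtain ⟨B, hB⟩ := exists_cc_comm hG A hfg hc x₀
    obtain ⟨B', hB'⟩ := cc_finite hG hAM hi hB
    obtain ⟨B₀, hsub, h₀, h1 | h1⟩ := split_of_bd hG hGC hB' fun g => bd_of_comm hG hB' g (hcomm g)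
    · exfalso
      have hU : CC K (univ : Set X) := by
        refine ⟨⟨x₀, mem_univ _⟩, isClosed_univ, fun _ _ _ _ _ _ => mem_univ _,
          fun _ _ _ _ => mem_univ _, ?_⟩
        obtain ⟨C, hC, hcov⟩ := h₀.cc
        refine ⟨C, hC, fun x _ => ?_⟩
        obtain ⟨g, hg, hgx⟩ := hcov x (h1 x)
        rw [hMdef, mem_SS, one_smul, one_smul] at hg
        exact ⟨g, (hK g).2 hg.1, hgx⟩
      exact not_cocompact hT hact hG hU hab hK hp hq fun x => mem_univ x
    · exact ⟨h, B₀, hVh, h₀, nontrivial_of_infinite hG h₀ hfin, h1⟩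

end Pool.Agent.Run7.h550.RV
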