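import Pool.Agent.Run7.h550.RV.Main

/-!
# Segments whose stabiliser is convex cocompact and contains a rank one isometry
-/

set_option autoImplicit false

open Metric Set Filter Topology
open Pool.Agent.TH60.FP Pool.Agent.TH60.FP.Strip Pool.Agent.Y34.HB Pool.Agent.Y34.EL
open Pool.Agent.T6.H46.RR Pool.Agent.T6.H67.TA Pool.Agent.T6.H46.RC
open scoped Pointwise

namespace Pool.Agent.Run7.h550.RV

variable {X : Type} [MetricSpace X] {G : Type} [Group G] [MulAction G X]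
variable {V : Type} {T : SimpleGraph V} (hT : T.IsTree) [MulAction G V]
  (hact : ∀ (g : G) (u v : V), T.Adj u v → T.Adj (g • u) (g • v))

omit [MulAction G X] in
include hT hact in
lemma Be.fix' {x y x' y' x'' y'' : V} (e : T.Adj x y) (e' : T.Adj x' y') (e'' : T.Adj x'' y'')
    (h : Be T x y x' y') (h' : Be T x' y' x'' y'') {s : G} (sx : s • x = x)
    (sy : s • x'' = x'') : s • x' = x' ∧ s • y' = y' := by
  obtain ⟨s1, s2⟩ := Be.sum hT e e' e'' h h'
  obtain ⟨h1, h2, h3, h4⟩ := h.vals hT e e'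
  obtain ⟨k1, k2, k3, k4⟩ := h'.vals hT e' e''
  obtain ⟨l1, l2, l3, l4⟩ := (Be.comp hT e e' e'' h h').vals hT e e''
  constructor
  · refine fix_between hT hact (a := x) (b := x'') ?_ sx sy
    unfold P
    rw [D_comm x' x]
    omega
  · refine fix_between hT hact (a := x) (b := x'') ?_ sx sy
    unfold P
    rw [D_comm y' x]
    omega

/-- the pointwise stabiliser of two edges -/
def Q4 (M : Subgroup G) (a b c d : V) : Prop :=
  ∀ s : G, s ∈ M ↔ (s • a = a ∧ s • b = b) ∧ (s • c = c ∧ s • d = d)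

lemma conj_fix (u s : G) (v : V) : (u⁻¹ * s * u) • v = v ↔ s • u • v = u • v := by
  rw [mul_smul, mul_smul, inv_smul_eq_iff]

lemma Q4.conj {M : Subgroup G} {a b c d : V} (hM : Q4 M a b c d) (u s : G) :
    u⁻¹ * s * u ∈ M ↔ (s • u • a = u • a ∧ s • u • b = u • b) ∧
      (s • u • c = u • c ∧ s • u • d = u • d) := by
  rw [hM, conj_fix, conj_fix, conj_fix, conj_fix]

omit [MulAction G X] in
include hT hact in
/-- the element `g h₂ h₁` is hyperbolic, and what fixes a long segment of its axis fixes three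
translates of the segment -/
lemma seg_axis {a b c d : V} (hab : T.Adj a b) (hcd : T.Adj c d) (hh : Be T a b c d)
    {M : Subgroup G} (hM : Q4 M a b c d) {h₁ h₂ g : G}
    (hh₁ : Be T c d (h₁ • a) (h₁ • b)) (hh₂ : Be T c d (h₂ • a) (h₂ • b)) (hg : g ∈ M) :
    OnAxis T (g * h₂ * h₁) (h₁⁻¹ • a) ∧ ∀ s : G, s • h₁⁻¹ • a = h₁⁻¹ • a →
      s • (g * h₂ * h₁) ^ 2 • h₁⁻¹ • a = (g * h₂ * h₁) ^ 2 • h₁⁻¹ • a →
      s ∈ M ∧ (h₁⁻¹)⁻¹ * s * h₁⁻¹ ∈ M ∧ (g * h₂)⁻¹ * s * (g * h₂) ∈ M := by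
  have A : ∀ g : G, T.Adj (g • a) (g • b) := fun g => hact g a b hab
  have A' : ∀ g : G, T.Adj (g • c) (g • d) := fun g => hact g c d hcd
  have c₁ : Coh T a b h₁ := Be.comp hT hab hcd (A h₁) hh hh₁
  have c₂ : Coh T a b h₂ := Be.comp hT hab hcd (A h₂) hh hh₂
  obtain ⟨⟨g1, g2⟩, g3, g4⟩ := (hM g).1 hg
  obtain ⟨hax, hfix⟩ := coh_axis hT hact hab c₁ c₂ g1 g2
  refine ⟨hax, fun s e1 e2 => ?_⟩
  obtain ⟨⟨x1, x2⟩, x3, x4, x5⟩ := hfix s e1 e2
  -- `c, d` is between `e` and `g h₂ e`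
  have b1 : Be T c d ((g * h₂) • a) ((g * h₂) • b) := by
    have := Be.smul hT hact hh₂ g
    rwa [g3, g4, ← mul_smul, ← mul_smul] at this
  have y1 := Be.fix hT hact hab hcd (A _) hh b1 x1 x5
  have b2 : Be T (h₁⁻¹ • a) (h₁⁻¹ • b) (h₁⁻¹ • c) (h₁⁻¹ • d) := Be.smul hT hact hh h₁⁻¹
  have b3 : Be T (h₁⁻¹ • c) (h₁⁻¹ • d) a b := by
    have := Be.smul hT hact hh₁ h₁⁻¹
    rwa [inv_smul_smul, inv_smul_smul] at this
  have y2 := Be.fix hT hact (A _) (A' _) hab b2 b3 e1 x2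
  have b4 : Coh T a b (g * h₂) := Be.comp hT hab hcd (A _) hh b1
  have b5 : Be T c d ((h₁ * (g * h₂)) • a) ((h₁ * (g * h₂)) • b) := by
    have := Be.smul hT hact b4 h₁
    rw [← mul_smul, ← mul_smul] at this
    exact Be.comp hT hcd (A h₁) (A _) hh₁ this
  have b6 : Be T ((g * h₂) • a) ((g * h₂) • b) ((g * h₂) • c) ((g * h₂) • d) :=
    Be.smul hT hact hh (g * h₂)
  have b7 : Be T ((g * h₂) • c) ((g * h₂) • d) ((g * h₂ * (h₁ * (g * h₂))) • a)
      ((g * h₂ * (h₁ * (g * h₂))) • b) := by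
    have := Be.smul hT hact b5 (g * h₂)
    rwa [← mul_smul _ _ a, ← mul_smul _ _ b] at this
  have e3 : (g * h₂ * h₁) ^ 2 • h₁⁻¹ • a = (g * h₂ * (h₁ * (g * h₂))) • a := by
    rw [smul_smul]; congr 1; rw [pow_two]; simp only [mul_assoc, mul_inv_cancel, mul_one]
  rw [e3] at e2
  have y3 := Be.fix' hT hact (A _) (A' _) (A _) b6 b7 x4 e2
  refine ⟨?_, ?_, ?_⟩
  · exact (hM s).2 ⟨⟨x1, x2⟩, y1⟩
  · rw [hM.conj]
    exact ⟨⟨e1, x3⟩, y2⟩
  · rw [hM.conj]
    exact ⟨⟨x4, x5⟩, y3⟩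

include hT hact in
lemma seg_step (hG : Geo X G) {a b c₀ d : V} (hab : T.Adj a b) (hcd : T.Adj c₀ d)
    (hh : Be T a b c₀ d) {M : Subgroup G} (hM : Q4 M a b c₀ d) {B : Set X}
    (hB : CC M B) (k : M) {τ : ℝ} (hτ : 0 < τ) {c : ℝ → B}
    (hk : @Axis B _ M _ (bact hB) k τ c) (hHP : HP c = ∅)
    (hno : ∀ g : G, ¬ RankOne X g) {h₁ h₂ : G} (hh₁ : Be T c₀ d (h₁ • a) (h₁ • b))
    (hh₂ : Be T c₀ d (h₂ • a) (h₂ • b)) : Bd B h₁⁻¹ ∨ Bd B h₂ := by
  have := hG.proper
  have := hG.isom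
  let _ := bact hB
  have hGB := geo_sub hG hB
  have := hGB.isom
  have := hGB.proper
  by_cases f1 : ∀ s : M, ∃ l : ℕ, 0 < l ∧ (s * k * s⁻¹) ^ l ∈ IK M h₁⁻¹
  · exact Or.inl (full hG hB k hτ hk hHP _ f1)
  by_cases f2 : ∀ s : M, ∃ l : ℕ, 0 < l ∧ (s * k * s⁻¹) ^ l ∈ IK M h₂
  · exact Or.inr (full hG hB k hτ hk hHP _ f2)
  exfalso
  push Not at f1 f2
  obtain ⟨s₁, hs₁⟩ := f1
  obtain ⟨s₂, hs₂⟩ := f2
  obtain ⟨R, D, hP⟩ := pass_of_axis hGB.cn hτ hk hHP
  obtain ⟨g, hg⟩ := dyn hGB (axis_conj hk s₂) (hP.smul s₂) (axis_conj hk s₁) (hP.smul s₁)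
    (A₁ := IK M h₁⁻¹) (A₂ := IK M h₂) (qc_IK hG hB h₁⁻¹) (qc_IK hG hB h₂)
    hs₂ hs₁
  obtain ⟨hax, hfix⟩ := seg_axis hT hact hab hcd hh hM hh₁ hh₂ g.2
  obtain ⟨o, ho⟩ := hB.ne
  refine hno _ (rank_one_of_finite hT hact hG o hax 2 ?_)
  refine (hg.image (fun s : M => (s : G))).subset ?_
  rintro s ⟨e1, e2⟩
  obtain ⟨z1, z2, z3⟩ := hfix s e1 e2
  refine ⟨⟨s, z1⟩, ⟨?_, ?_⟩, rfl⟩
  · rw [mem_IK]
    exact z2
  · rw [mem_IK]
    show h₂⁻¹ * ((g : G)⁻¹ * s * g) * h₂ ∈ M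
    have e : h₂⁻¹ * ((g : G)⁻¹ * s * g) * h₂ = ((g : G) * h₂)⁻¹ * s * ((g : G) * h₂) := by group
    rw [e]
    exact z3

omit [MulAction G X] in
include hT hact in
/-- facing elements generate -/
lemma fac_generate {c d : V} (hcd : T.Adj c d) {r : G} (hr : Fac T c d r) {F : G → Prop}
    (hm : ∀ x y : G, F x → F y → F (x * y)) (hF : ∀ u : G, Fac T c d u → F u) (g : G) : F g := by
  have A' : ∀ g : G, T.Adj (g • c) (g • d) := fun g => hact g c d hcd
  have hri := hF _ (hr.inv hT hact)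
  have h1 : ∀ g : G, Fac T c d (g * r) → F g := by
    intro g hg
    have := hm _ _ (hF _ hg) hri
    rwa [mul_inv_cancel_right] at this
  have h2 : ∀ g : G, Fac T c d (r * g * r) → F g := by
    intro g hg
    have := hm _ _ (hm _ _ hri (hF _ hg)) hri
    have e : r⁻¹ * (r * g * r) * r⁻¹ = g := by group
    rwa [e] at this
  have b0 : Be T c d (r • d) (r • c) := hr
  have b1 : Be T ((r * g) • c) ((r * g) • d) ((r * g * r) • d) ((r * g * r) • c) := by
    have := Be.smul hT hact b0 (r * g)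
    rwa [← mul_smul _ _ d, ← mul_smul _ _ c] at this
  rcases edge_cases hT hcd (A' g) with k | k | k | k | k | k
  · apply h1
    have := Be.smul hT hact b0 g
    rwa [k.1, k.2, ← mul_smul, ← mul_smul] at this
  · apply h2
    have b2 : Be T (r • d) (r • c) ((r * g * r) • d) ((r * g * r) • c) := by
      rwa [mul_smul r g c, mul_smul r g d, k.1, k.2] at b1
    exact Be.comp hT hcd (A' r).symm (A' _).symm b0 b2
  · exact h1 g (coh_mul_fac hT hact hcd k hr)
  · have h3 : Coh T c d g⁻¹ := (coh_inv hT hact).2 k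
    have h4 := hF _ ((coh_mul_fac hT hact hcd h3 hr).inv hT hact)
    have h5 := hm _ _ (hF _ hr) h4
    have e : r * (g⁻¹ * r)⁻¹ = g := by group
    rwa [e] at h5
  · exact hF g k
  · apply h2
    have b3 : Be T d c (g • c) (g • d) := k
    have b4 : Be T (r • d) (r • c) ((r * g) • c) ((r * g) • d) := by
      have := Be.smul hT hact b3 r
      rwa [← mul_smul _ _ c, ← mul_smul _ _ d] at this
    have b5 := Be.comp hT (A' r).symm (A' _) (A' _).symm b4 b1
    exact Be.comp hT hcd (A' r).symm (A' _).symm b0 b5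

include hT hact in
/-- **Main theorem for segments** -/
theorem seg_main (hG : Geo X G) (hGC : GC X) {a b c₀ d : V} (hab : T.Adj a b)
    (hcd : T.Adj c₀ d) (hh : Be T a b c₀ d) {M : Subgroup G} (hM : Q4 M a b c₀ d) {B : Set X}
    (hB : CC M B) (k : M) {τ : ℝ} (hτ : 0 < τ)
    {c : ℝ → B} (hk : @Axis B _ M _ (bact hB) k τ c) (hHP : HP c = ∅)
    {q r : G} (hq : Fac T b a q) (hr : Fac T c₀ d r) : (∃ g : G, RankOne X g) ∨
      ∃ B₀ : Set X, B₀ ⊆ B ∧ CC M B₀ ∧ Nontrivial B₀ ∧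
      ∃ (Z : Type) (_ : MetricSpace Z) (_ : Nontrivial Z) (e : X ≃ Z × B₀),
      ∀ x x' : X, dist x x' ^ 2 = dist (e x).1 (e x').1 ^ 2 + dist (e x).2 (e x').2 ^ 2 := by
  have := hG.isom
  have := hG.proper
  have A : ∀ g : G, T.Adj (g • a) (g • b) := fun g => hact g a b hab
  have A' : ∀ g : G, T.Adj (g • c₀) (g • d) := fun g => hact g c₀ d hcd
  by_cases hno : ∃ g : G, RankOne X g
  · exact Or.inl hno
  right
  push Not at hno
  have m : ∀ x y : G, Bd B x → Bd B y → Bd B (x * y) := fun x y hx hy => hx.mul hB hy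
  have hall : ∀ g : G, Bd B g := by
    by_cases hR : ∀ u : G, Fac T c₀ d u → Bd B u
    · exact fac_generate hT hact hcd hr m hR
    · push Not at hR
      obtain ⟨u₂, hu₂, hn₂⟩ := hR
      refine fac_generate hT hact hab.symm hq m fun u hu => ?_
      -- the second element
      have r0 : Be T c₀ d (u₂ • d) (u₂ • c₀) := hu₂
      have r1 : Be T (u₂ • d) (u₂ • c₀) (u₂ • b) (u₂ • a) := Be.smul hT hact hh.rev u₂
      have r2 : Be T (u₂ • b) (u₂ • a) ((u₂ * q) • a) ((u₂ * q) • b) := by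
        have := Be.smul hT hact (show Be T b a (q • a) (q • b) from hq) u₂
        rwa [← mul_smul _ _ a, ← mul_smul _ _ b] at this
      have r3 : Be T c₀ d (u₂ • b) (u₂ • a) :=
        Be.comp hT hcd (A' _).symm (A _).symm r0 r1
      have r4 : Be T (u₂ • d) (u₂ • c₀) ((u₂ * q) • a) ((u₂ * q) • b) :=
        Be.comp hT (A' _).symm (A _).symm (A _) r1 r2
      have r5 : Be T c₀ d ((u₂ * q) • a) ((u₂ * q) • b) :=
        Be.comp hT hcd (A _).symm (A _) r3 r2
      have n2 : ¬ Bd B (u₂ * q) := by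
        intro hb
        refine hn₂ (Bd.sub hG hB hb fun s hs hs' => ?_)
        rw [hM.conj] at hs' ⊢
        rw [hM] at hs
        exact ⟨(Be.fix hT hact hcd (A _).symm (A _) r3 r2 hs.2.1 hs'.1.2).symm,
          (Be.fix hT hact hcd (A' _).symm (A _) r0 r4 hs.2.1 hs'.1.2).symm⟩
      -- the first element
      have l0 : Be T (u • b) (u • a) a b := Be.rev (show Be T b a (u • a) (u • b) from hu)
      have l1 : Be T (u • d) (u • c₀) (u • b) (u • a) := Be.smul hT hact hh.rev u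
      have l2 : Be T ((u * r) • c₀) ((u * r) • d) (u • d) (u • c₀) := by
        have := Be.smul hT hact (Be.rev (show Be T c₀ d (r • d) (r • c₀) from hr)) u
        rwa [← mul_smul _ _ c₀, ← mul_smul _ _ d] at this
      have l3 : Be T (u • d) (u • c₀) a b := Be.comp hT (A' _).symm (A _).symm hab l1 l0
      have l4 : Be T ((u * r) • c₀) ((u * r) • d) (u • b) (u • a) :=
        Be.comp hT (A' _) (A' _).symm (A _).symm l2 l1
      have l5 : Be T ((u * r) • c₀) ((u * r) • d) a b :=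
        Be.comp hT (A' _) (A' _).symm hab l2 l3
      have l6 : Be T c₀ d ((u * r)⁻¹ • a) ((u * r)⁻¹ • b) := by
        have := Be.smul hT hact l5 (u * r)⁻¹
        rwa [inv_smul_smul, inv_smul_smul] at this
      rcases seg_step hT hact hG hab hcd hh hM hB k hτ hk hHP hno l6 r5 with h2 | h2
      · rw [inv_inv] at h2
        refine Bd.sub hG hB h2 fun s hs hs' => ?_
        rw [hM.conj] at hs' ⊢
        rw [hM] at hs
        exact ⟨(Be.fix hT hact (A' _) (A _).symm hab l4 l0 hs'.2.1 hs.1.2).symm,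
          (Be.fix hT hact (A' _) (A' _).symm hab l2 l3 hs'.2.1 hs.1.2).symm⟩
      · exact absurd h2 n2
  -- the facing element for the first edge
  have hp : Fac T a b r := by
    have r0 : Be T c₀ d (r • d) (r • c₀) := hr
    have r1 : Be T (r • d) (r • c₀) (r • b) (r • a) := Be.smul hT hact hh.rev r
    have r2 := Be.comp hT hcd (A' _).symm (A _).symm r0 r1
    exact Be.comp hT hab hcd (A _).symm hh r2
  obtain ⟨B₀, hsub, h₀, h1 | h1⟩ := split_of_bd hG hGC hB hall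
  · exfalso
    obtain ⟨x₀, hx₀⟩ := hB.ne
    have hU : CC (MulAction.stabilizer G a ⊓ MulAction.stabilizer G b) (univ : Set X) := by
      refine ⟨⟨x₀, mem_univ _⟩, isClosed_univ, fun _ _ _ _ _ _ => mem_univ _,
        fun _ _ _ _ => mem_univ _, ?_⟩
      obtain ⟨C, hC, hcov⟩ := h₀.cc
      refine ⟨C, hC, fun x _ => ?_⟩
      obtain ⟨g, hg, hgx⟩ := hcov x (h1 x)
      exact ⟨g, ((hM g).1 hg).1, hgx⟩
    exact not_cocompact hT hact hG hU hab
      (fun s => by simp [Subgroup.mem_inf, MulAction.mem_stabilizer_iff]) hp hq fun x => mem_univ x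
  · exact ⟨B₀, hsub, h₀, nontrivial_of_axis hB h₀ hsub k hτ hk, h1⟩

include hT hact in
/-- **Main theorem for two vertices** -/
theorem seg_main' (hG : Geo X G) (hGC : GC X) {x y : V} (hxy : x ≠ y) {M : Subgroup G}
    (hM : ∀ s : G, s ∈ M ↔ s • x = x ∧ s • y = y) {B : Set X}
    (hB : CC M B) (k : M) {τ : ℝ} (hτ : 0 < τ)
    {c : ℝ → B} (hk : @Axis B _ M _ (bact hB) k τ c) (hHP : HP c = ∅)
    {q r : G} (hq : D T y (q • y) = D T x (q • x) + 2 * D T x y)
    (hr : D T x (r • x) = D T y (r • y) + 2 * D T x y) : (∃ g : G, RankOne X g) ∨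
      ∃ B₀ : Set X, B₀ ⊆ B ∧ CC M B₀ ∧ Nontrivial B₀ ∧
      ∃ (Z : Type) (_ : MetricSpace Z) (_ : Nontrivial Z) (e : X ≃ Z × B₀),
      ∀ x x' : X, dist x x' ^ 2 = dist (e x).1 (e x').1 ^ 2 + dist (e x).2 (e x').2 ^ 2 := by
  obtain ⟨b, hb, hb'⟩ := exists_closer hT hxy
  obtain ⟨c₀, hc, hc'⟩ := exists_closer hT hxy.symm
  have hD := D_pos hT hxy
  rcases eq_or_lt_of_le hD with h1 | h1
  · -- adjacent vertices
    have hadj : T.Adj x y := by
      have : D T b y = 0 := by omega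
      rw [← D_eq_zero hT this]; exact hb
    refine Pool.Agent.T6.H46.RC.main hT hact hG hGC hB k hτ hk hHP hadj hM (p := r) (q := q) ?_ ?_
    · unfold Fac; omega
    · unfold Fac; omega
  · have k1 := adj_pm hT hb c₀
    have k2 := D_comm (T := T) c₀ x
    have k3 := D_comm (T := T) c₀ b
    have k4 := D_comm (T := T) y x
    have k5 := adj_pm hT hc b
    have k6 := D_comm (T := T) y b
    have k7 := D_nonneg (T := T) b c₀
    have t1 := D_tri hT x b c₀
    have t2 := D_tri hT b c₀ y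
    have ab := adj_D hb
    have ac := adj_D hc
    have k8 := D_comm (T := T) c₀ y
    have k9 := D_on_geod hT (u := x) (v := y) (p := b) (q := c₀) (by omega) (by omega) (by omega)
    have hbe : Be T x b c₀ y := by
      unfold Be
      omega
    have hM' : Q4 M x b c₀ y := by
      intro s
      rw [hM]
      constructor
      · rintro ⟨s1, s2⟩
        refine ⟨⟨s1, ?_⟩, ?_, s2⟩
        · refine fix_between hT hact (a := x) (b := y) ?_ s1 s2
          unfold P
          rw [D_comm b x]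
          omega
        · refine fix_between hT hact (a := x) (b := y) ?_ s1 s2
          unfold P
          omega
      · rintro ⟨⟨s1, -⟩, -, s2⟩
        exact ⟨s1, s2⟩
    have S := fun (g : G) (u v : V) => D_smul hT hact g u v
    refine seg_main hT hact hG hGC hb hc.symm hbe hM' hB k hτ hk hHP (q := q) (r := r) ?_ ?_
    · unfold Fac
      have e1 := D_tri hT y b (q • y)
      have e2 := D_tri hT b (q • b) (q • y)
      have e3 := S q b y
      have e4 := D_tri hT b x (q • b)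
      have e5 := D_tri hT x (q • x) (q • b)
      have e6 := S q x b
      have e7 := D_comm (T := T) b x
      omega
    · unfold Fac
      have e1 := D_tri hT x c₀ (r • x)
      have e2 := D_tri hT c₀ (r • c₀) (r • x)
      have e3 := S r c₀ x
      have e4 := D_tri hT c₀ y (r • c₀)
      have e5 := D_tri hT y (r • y) (r • c₀)
      have e6 := S r y c₀
      omega

end Pool.Agent.Run7.h550.RV
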