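import Pool.Agent.T6.H46.RC.Tr
import Pool.Agent.Run7.h550.RV.Chain

/-!
# Directed edges of a tree in a row, and segments whose stabiliser is commensurated

`Be T x y x' y'`: the path from `x` to `y'` starts with the edge `x, y` and ends with the edge
`x', y'`.  `SS a b g g'` is the pointwise stabiliser of the translates by `g` and `g'` of the edge
`{a, b}`.
-/

set_option autoImplicit false

open Pool.Agent.T6.H67.TA Pool.Agent.T6.H46.RR Pool.Agent.T6.H46.RC
open scoped Pointwise

namespace Pool.Agent.Run7.h550.RV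

variable {V : Type} {T : SimpleGraph V} (hT : T.IsTree)

/-- the path from `x` to `y'` starts with `x, y` and ends with `x', y'` -/
def Be (T : SimpleGraph V) (x y x' y' : V) : Prop := D T x y' = D T y x' + 2

lemma Be.rev {x y x' y' : V} (h : Be T x y x' y') : Be T y' x' y x := by
  unfold Be at *
  rw [D_comm y' x, D_comm x' y]
  exact h

include hT in
lemma Be.vals {x y x' y' : V} (e : T.Adj x y) (e' : T.Adj x' y') (hh : Be T x y x' y') :
    D T x y' = D T x x' + 1 ∧ D T x x' = D T y x' + 1 ∧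
      D T y y' = D T y x' + 1 ∧ D T x y' = D T y y' + 1 := by
  unfold Be at hh
  have e1 := adj_pm hT e x'
  have e2 := adj_pm hT e y'
  have e3 := adj_pm hT e' x
  have e4 := adj_pm hT e' y
  rw [D_comm y' x, D_comm x' x] at e3
  rw [D_comm y' y, D_comm x' y] at e4
  omega

include hT in
lemma Be.sum {x y x' y' x'' y'' : V} (e : T.Adj x y) (e' : T.Adj x' y') (e'' : T.Adj x'' y'')
    (h : Be T x y x' y') (h' : Be T x' y' x'' y'') :
    D T x y'' = D T x x' + 1 + D T y' y'' ∧ D T y x'' = D T y x' + 1 + D T y' x'' := by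
  obtain ⟨h1, h2, h3, h4⟩ := h.vals hT e e'
  obtain ⟨k1, k2, k3, k4⟩ := h'.vals hT e' e''
  exact ⟨sep_edge hT (adj_D e') h1 k4, sep_edge hT (adj_D e') h3 k2⟩

include hT in
lemma Be.comp {x y x' y' x'' y'' : V} (e : T.Adj x y) (e' : T.Adj x' y') (e'' : T.Adj x'' y'')
    (h : Be T x y x' y') (h' : Be T x' y' x'' y'') : Be T x y x'' y'' := by
  obtain ⟨s1, s2⟩ := Be.sum hT e e' e'' h h'
  obtain ⟨h1, h2, h3, h4⟩ := h.vals hT e e'
  obtain ⟨k1, k2, k3, k4⟩ := h'.vals hT e' e''
  unfold Be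
  omega

variable {G : Type} [Group G] [MulAction G V]
  (hact : ∀ (g : G) (u v : V), T.Adj u v → T.Adj (g • u) (g • v))

include hT hact in
lemma Be.fix {x y x' y' x'' y'' : V} (e : T.Adj x y) (e' : T.Adj x' y') (e'' : T.Adj x'' y'')
    (h : Be T x y x' y') (h' : Be T x' y' x'' y'') {s : G} (sx : s • x = x)
    (sy : s • y'' = y'') : s • x' = x' ∧ s • y' = y' := by
  obtain ⟨s1, s2⟩ := Be.sum hT e e' e'' h h'
  obtain ⟨h1, h2, h3, h4⟩ := h.vals hT e e'
  obtain ⟨k1, k2, k3, k4⟩ := h'.vals hT e' e''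
  constructor
  · refine fix_between hT hact (a := x) (b := y'') ?_ sx sy
    unfold P
    rw [D_comm x' x]
    omega
  · refine fix_between hT hact (a := x) (b := y'') ?_ sx sy
    unfold P
    rw [D_comm y' x]
    omega

include hT hact in
lemma Be.smul {x y x' y' : V} (h : Be T x y x' y') (g : G) :
    Be T (g • x) (g • y) (g • x') (g • y') := by
  unfold Be at *
  rw [D_smul hT hact, D_smul hT hact]
  exact h

/-- pointwise stabiliser of a translate of the edge -/
def St (a b : V) (g : G) : Subgroup G :=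
  MulAction.stabilizer G (g • a) ⊓ MulAction.stabilizer G (g • b)

/-- pointwise stabiliser of two translates of the edge -/
def SS (a b : V) (g g' : G) : Subgroup G := St a b g ⊓ St a b g'

lemma mem_SS {a b : V} {g g' s : G} : s ∈ SS a b g g' ↔
    (s • g • a = g • a ∧ s • g • b = g • b) ∧ (s • g' • a = g' • a ∧ s • g' • b = g' • b) := by
  unfold SS St
  simp only [Subgroup.mem_inf, MulAction.mem_stabilizer_iff]

lemma SS_comm (a b : V) (g g' : G) : SS a b g g' = SS a b g' g := inf_comm _ _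

lemma SS_swap (a b : V) (g g' : G) : SS a b g g' = SS b a g g' := by
  ext s
  rw [mem_SS, mem_SS]
  tauto

lemma SS_conj (a b : V) (u g g' : G) :
    ConjAct.toConjAct u • SS a b g g' = SS a b (u * g) (u * g') := by
  ext s
  rw [Subgroup.mem_pointwise_smul_iff_inv_smul_mem, ← ConjAct.toConjAct_inv,
    ConjAct.toConjAct_smul, mem_SS, mem_SS, inv_inv]
  have key : ∀ (w : G) (v : V), (u⁻¹ * s * u) • w • v = w • v ↔ s • (u * w) • v = (u * w) • v := by
    intro w v
    rw [mul_smul, mul_smul, inv_smul_eq_iff, mul_smul]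
  rw [key, key, key, key]

lemma relIndex_conj (a b : V) (u g g' k k' : G) :
    (SS a b (u * g) (u * g')).relIndex (SS a b (u * k) (u * k')) =
      (SS a b g g').relIndex (SS a b k k') := by
  rw [← SS_conj, ← SS_conj, Subgroup.relIndex_pointwise_smul]

/-- the stabiliser of the segment does not get smaller if the segment is extended at its end -/
def RMin (T : SimpleGraph V) (a b : V) (h : G) : Prop :=
  ∀ v : G, (Be T (h • a) (h • b) (v • a) (v • b) ∨ Be T (h • a) (h • b) (v • b) (v • a)) →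
    (SS a b 1 v).relIndex (SS a b 1 h) ≠ 0

/-- the stabiliser of the segment does not get smaller if the segment is extended at its
beginning -/
def LMin (T : SimpleGraph V) (a b : V) (h : G) : Prop :=
  ∀ u : G, (Be T (u • a) (u • b) a b ∨ Be T (u • b) (u • a) a b) →
    (SS a b u h).relIndex (SS a b 1 h) ≠ 0

lemma coh_be {a b : V} {h : G} : Coh T a b h ↔ Be T a b (h • a) (h • b) := Iff.rfl

lemma fac_be {a b : V} {h : G} : Fac T a b h ↔ Be T a b (h • b) (h • a) := Iff.rfl

section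
variable {a b : V} (hab : T.Adj a b)

include hT hact hab in
/-- the stabiliser of a longer segment is smaller -/
lemma SS_le {g g' g'' : G}
    (h' : Be T (g' • a) (g' • b) (g'' • a) (g'' • b) ∧ Be T (g • a) (g • b) (g' • a) (g' • b) ∨
      Be T (g' • b) (g' • a) (g'' • a) (g'' • b) ∧ Be T (g • a) (g • b) (g' • b) (g' • a) ∨
      Be T (g' • a) (g' • b) (g'' • b) (g'' • a) ∧ Be T (g • a) (g • b) (g' • a) (g' • b) ∨
      Be T (g' • b) (g' • a) (g'' • b) (g'' • a) ∧ Be T (g • a) (g • b) (g' • b) (g' • a))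
    {s : G} (hs : s ∈ SS a b g g'') : s • g' • a = g' • a ∧ s • g' • b = g' • b := by
  rw [mem_SS] at hs
  have A : ∀ g : G, T.Adj (g • a) (g • b) := fun g => hact g a b hab
  rcases h' with ⟨h1, h2⟩ | ⟨h1, h2⟩ | ⟨h1, h2⟩ | ⟨h1, h2⟩
  · exact Be.fix hT hact (A g) (A g') (A g'') h2 h1 hs.1.1 hs.2.2
  · exact (Be.fix hT hact (A g) (A g').symm (A g'') h2 h1 hs.1.1 hs.2.2).symm
  · exact Be.fix hT hact (A g) (A g') (A g'').symm h2 h1 hs.1.1 hs.2.1
  · exact (Be.fix hT hact (A g) (A g').symm (A g'').symm h2 h1 hs.1.1 hs.2.1).symm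

include hT hact hab in
lemma step_coh {h g : G} (hh : Coh T a b h) (hR : RMin T a b h) (hL : LMin T a b h)
    (hg : Be T (h • a) (h • b) (g • a) (g • b)) :
    g ∈ Subgroup.Commensurable.commensurator (SS a b 1 h) := by
  have A : ∀ g : G, T.Adj (g • a) (g • b) := fun g => hact g a b hab
  have hgh : Be T (g • a) (g • b) ((g * h) • a) ((g * h) • b) := by
    rw [mul_smul, mul_smul]; exact Be.smul hT hact hh g
  have h1 : Be T (h • a) (h • b) ((g * h) • a) ((g * h) • b) :=
    Be.comp hT (A h) (A g) (A _) hg hgh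
  have h2 : Be T a b (g • a) (g • b) := Be.comp hT hab (A h) (A g) hh hg
  have n1 := hR (g * h) (Or.inl h1)
  have n2 : (SS a b 1 (g * h)).relIndex (SS a b g (g * h)) ≠ 0 := by
    have h3 := Be.smul hT hact h2 g⁻¹
    rw [inv_smul_smul, inv_smul_smul] at h3
    have h4 := hL g⁻¹ (Or.inl h3)
    have h5 := relIndex_conj a b g g⁻¹ h 1 h
    rw [mul_inv_cancel, mul_one] at h5
    rw [h5]; exact h4
  rw [Subgroup.Commensurable.commensurator_mem_iff, SS_conj, mul_one]
  have l1 : SS a b 1 (g * h) ≤ SS a b 1 h := by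
    intro s hs
    have := SS_le hT hact hab (g := 1) (g' := h) (g'' := g * h)
      (Or.inl ⟨h1, by simpa using coh_be.1 hh⟩) hs
    rw [mem_SS] at hs ⊢
    exact ⟨hs.1, this⟩
  have l2 : SS a b 1 (g * h) ≤ SS a b g (g * h) := by
    intro s hs
    have := SS_le hT hact hab (g := 1) (g' := g) (g'' := g * h)
      (Or.inl ⟨hgh, by simpa using h2⟩) hs
    rw [mem_SS] at hs ⊢
    exact ⟨this, hs.2⟩
  exact ⟨fun h0 => n1 (Nat.eq_zero_of_zero_dvd (h0 ▸ Subgroup.relIndex_dvd_of_le_left _ l2)),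
    fun h0 => n2 (Nat.eq_zero_of_zero_dvd (h0 ▸ Subgroup.relIndex_dvd_of_le_left _ l1))⟩

include hT hact hab in
lemma step_fac {h g : G} (hh : Coh T a b h) (hR : RMin T a b h)
    (hg : Be T (h • a) (h • b) ((g * h) • b) ((g * h) • a)) :
    g ∈ Subgroup.Commensurable.commensurator (SS a b 1 h) := by
  have A : ∀ g : G, T.Adj (g • a) (g • b) := fun g => hact g a b hab
  have hgh : Be T ((g * h) • b) ((g * h) • a) (g • b) (g • a) := by
    rw [mul_smul, mul_smul]; exact (Be.smul hT hact hh g).rev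
  have h1 : Be T (h • a) (h • b) (g • b) (g • a) := Be.comp hT (A h) (A _).symm (A g).symm hg hgh
  -- the same for the inverse
  have hg' : Be T (h • a) (h • b) ((g⁻¹ * h) • b) ((g⁻¹ * h) • a) := by
    have := Be.smul hT hact hg.rev g⁻¹
    rwa [mul_smul, mul_smul, inv_smul_smul, inv_smul_smul, ← mul_smul, ← mul_smul] at this
  have hgh' : Be T ((g⁻¹ * h) • b) ((g⁻¹ * h) • a) (g⁻¹ • b) (g⁻¹ • a) := by
    rw [mul_smul, mul_smul]; exact (Be.smul hT hact hh g⁻¹).rev
  have h1' : Be T (h • a) (h • b) (g⁻¹ • b) (g⁻¹ • a) :=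
    Be.comp hT (A h) (A _).symm (A _).symm hg' hgh'
  have n1 := hR g (Or.inr h1)
  have n2 : (SS a b 1 g).relIndex (SS a b g (g * h)) ≠ 0 := by
    have h4 := hR g⁻¹ (Or.inr h1')
    have h5 := relIndex_conj a b g g⁻¹ 1 1 h
    rw [mul_inv_cancel, mul_one] at h5
    rw [h5, SS_comm]; exact h4
  rw [Subgroup.Commensurable.commensurator_mem_iff, SS_conj, mul_one]
  have l1 : SS a b 1 g ≤ SS a b 1 h := by
    intro s hs
    have := SS_le hT hact hab (g := 1) (g' := h) (g'' := g)
      (Or.inr (Or.inr (Or.inl ⟨h1, by simpa using coh_be.1 hh⟩))) hs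
    rw [mem_SS] at hs ⊢
    exact ⟨hs.1, this⟩
  have h2 : Be T a b ((g * h) • b) ((g * h) • a) := Be.comp hT hab (A h) (A _).symm hh hg
  have l2 : SS a b 1 g ≤ SS a b g (g * h) := by
    intro s hs
    have := SS_le hT hact hab (g := 1) (g' := g * h) (g'' := g)
      (Or.inr (Or.inr (Or.inr ⟨hgh, by simpa using h2⟩))) hs
    rw [mem_SS] at hs ⊢
    exact ⟨hs.2, this⟩
  exact ⟨fun h0 => n1 (Nat.eq_zero_of_zero_dvd (h0 ▸ Subgroup.relIndex_dvd_of_le_left _ l2)),
    fun h0 => n2 (Nat.eq_zero_of_zero_dvd (h0 ▸ Subgroup.relIndex_dvd_of_le_left _ l1))⟩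

include hT hact hab in
/-- the stabiliser of a minimal segment is commensurated -/
theorem comm_all {h p : G} (hp : Fac T a b p) (hh : Coh T a b h)
    (hR : RMin T a b h) (hL : LMin T a b h) (g : G) :
    g ∈ Subgroup.Commensurable.commensurator (SS a b 1 h) := by
  have A : ∀ g : G, T.Adj (g • a) (g • b) := fun g => hact g a b hab
  set C := Subgroup.Commensurable.commensurator (SS a b 1 h) with hC
  have c1 : ∀ c : G, Coh T a b c → h * c ∈ C := by
    intro c hc
    refine step_coh hT hact hab hh hR hL ?_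
    rw [mul_smul, mul_smul]
    exact Be.smul hT hact hc h
  have c2 : ∀ c : G, Coh T a b c → Coh T a b (h * c) := by
    intro c hc
    have := Be.smul hT hact hc h
    rw [← mul_smul, ← mul_smul] at this
    exact Be.comp hT hab (A h) (A _) hh this
  have c3 : ∀ c : G, Coh T a b c → c ∈ C := by
    intro c hc
    have k1 := c1 h hh
    have k2 := c1 _ (c2 c hc)
    have e : c = (h * h)⁻¹ * (h * (h * c)) := by group
    rw [e]
    exact C.mul_mem (C.inv_mem k1) k2
  have hhC := c3 h hh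
  have f1 : ∀ p' : G, Fac T a b p' → p' ∈ C := by
    intro p' hp'
    have k1 : h * p' * h⁻¹ ∈ C := by
      refine step_fac hT hact hab hh hR ?_
      rw [inv_mul_cancel_right, mul_smul, mul_smul]
      exact Be.smul hT hact hp' h
    have e : p' = h⁻¹ * (h * p' * h⁻¹) * h := by group
    rw [e]
    exact C.mul_mem (C.mul_mem (C.inv_mem hhC) k1) hhC
  have f2 : ∀ q' : G, Fac T b a q' → q' ∈ C := by
    intro q' hq'
    have k1 := c3 _ (fac_mul hT hact hab hp hq')
    have e : q' = p⁻¹ * (p * q') := by group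
    rw [e]
    exact C.mul_mem (C.inv_mem (f1 p hp)) k1
  rcases edge_cases hT hab (hact g a b hab) with k | k | k | k | k | k
  · have k1 : Coh T a b (g * h) := by
      have := Be.smul hT hact hh g
      rwa [k.1, k.2, ← mul_smul, ← mul_smul] at this
    have e : g = (g * h) * h⁻¹ := by group
    rw [e]
    exact C.mul_mem (c3 _ k1) (C.inv_mem hhC)
  · have k1 : Fac T b a (g * h) := by
      have := Be.smul hT hact hh g
      rwa [k.1, k.2, ← mul_smul, ← mul_smul] at this
    have e : g = (g * h) * h⁻¹ := by group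
    rw [e]
    exact C.mul_mem (f2 _ k1) (C.inv_mem hhC)
  · exact c3 g k
  · have k1 : Coh T a b g⁻¹ := (coh_inv hT hact).2 k
    have := C.inv_mem (c3 _ k1)
    rwa [inv_inv] at this
  · exact f1 g k
  · exact f2 g k

include hT hact hab in
lemma exists_RMin {q c₀ : G} (hq : Fac T b a q) (hc₀ : Coh T a b c₀) (hV : VA (SS a b 1 c₀)) :
    ∃ h : G, Coh T a b h ∧ RMin T a b h ∧ SS a b 1 h ≤ SS a b 1 c₀ := by
  have A : ∀ g : G, T.Adj (g • a) (g • b) := fun g => hact g a b hab
  by_contra hcon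
  push Not at hcon
  have key : ∀ c : {c : G // Coh T a b c ∧ SS a b 1 c ≤ SS a b 1 c₀},
      ∃ c' : {c : G // Coh T a b c ∧ SS a b 1 c ≤ SS a b 1 c₀},
      SS a b 1 (c' : G) ≤ SS a b 1 (c : G) ∧
      (SS a b 1 (c' : G)).relIndex (SS a b 1 (c : G)) = 0 := by
    rintro ⟨c, hc, hcc⟩
    have h1 : ¬ RMin T a b c := fun h => hcon c hc h hcc
    unfold RMin at h1
    push Not at h1
    obtain ⟨v, hv, hv0⟩ := h1
    rcases hv with hv | hv
    · have l1 : SS a b 1 v ≤ SS a b 1 c := by
        intro s hs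
        have := SS_le hT hact hab (g := 1) (g' := c) (g'' := v)
          (Or.inl ⟨hv, by simpa using coh_be.1 hc⟩) hs
        rw [mem_SS] at hs ⊢
        exact ⟨hs.1, this⟩
      exact ⟨⟨v, Be.comp hT hab (A c) (A v) hc hv, l1.trans hcc⟩, l1, hv0⟩
    · have hvq : Be T (v • b) (v • a) ((v * q) • a) ((v * q) • b) := by
        rw [mul_smul, mul_smul]; exact Be.smul hT hact hq v
      have h2 : Be T (c • a) (c • b) ((v * q) • a) ((v * q) • b) :=
        Be.comp hT (A c) (A v).symm (A _) hv hvq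
      have h3 : Be T a b (v • b) (v • a) := Be.comp hT hab (A c) (A v).symm hc hv
      have l1 : SS a b 1 (v * q) ≤ SS a b 1 v := by
        intro s hs
        have := SS_le hT hact hab (g := 1) (g' := v) (g'' := v * q)
          (Or.inr (Or.inl ⟨hvq, by simpa using h3⟩)) hs
        rw [mem_SS] at hs ⊢
        exact ⟨hs.1, this⟩
      have l2 : SS a b 1 (v * q) ≤ SS a b 1 c := by
        intro s hs
        have := SS_le hT hact hab (g := 1) (g' := c) (g'' := v * q)
          (Or.inl ⟨h2, by simpa using coh_be.1 hc⟩) hs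
        rw [mem_SS] at hs ⊢
        exact ⟨hs.1, this⟩
      refine ⟨⟨v * q, Be.comp hT hab (A c) (A _) hc h2, l2.trans hcc⟩, l2, ?_⟩
      have := Subgroup.relIndex_dvd_of_le_left (SS a b 1 c) l1
      rw [hv0] at this
      exact Nat.eq_zero_of_zero_dvd this
  choose f hf1 hf2 using key
  obtain ⟨n, hn⟩ := hV.chain (fun n => SS a b 1 ((f^[n] ⟨c₀, hc₀, le_rfl⟩ :
    {c : G // Coh T a b c ∧ SS a b 1 c ≤ SS a b 1 c₀}) : G)) le_rfl (fun n => by
      rw [Function.iterate_succ_apply']
      exact hf1 _)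
  rw [Function.iterate_succ_apply'] at hn
  exact hn (hf2 _)

end

include hT hact in
/-- a minimal segment, extended at its end or at its beginning, has the same stabiliser up to
finite index -/
theorem exists_minimal_segment {a b : V} (hab : T.Adj a b) {p q c₀ : G} (hp : Fac T a b p)
    (hq : Fac T b a q) (hc₀ : Coh T a b c₀) (hV : VA (SS a b 1 c₀)) :
    ∃ h : G, Coh T a b h ∧ RMin T a b h ∧ LMin T a b h ∧ VA (SS a b 1 h) := by
  have A : ∀ g : G, T.Adj (g • a) (g • b) := fun g => hact g a b hab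
  obtain ⟨h, hh, hR, hhc⟩ := exists_RMin hT hact hab hq hc₀ hV
  have hc₀' : Coh T b a c₀⁻¹ := (coh_inv hT hact).2 hc₀
  have hV' : VA (SS b a 1 c₀⁻¹) := by
    have := hV.conj c₀⁻¹
    rwa [SS_conj, mul_one, inv_mul_cancel, SS_comm, SS_swap] at this
  obtain ⟨k, hk, hkR, -⟩ := exists_RMin hT hact hab.symm hp hc₀' hV'
  -- left minimal
  have hk' : Coh T a b k⁻¹ := (coh_inv hT hact).2 hk
  have hL : LMin T a b k⁻¹ := by
    intro u hu
    have h1 : Be T (k • b) (k • a) ((k * u) • b) ((k * u) • a) ∨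
        Be T (k • b) (k • a) ((k * u) • a) ((k * u) • b) := by
      simp only [mul_smul]
      rcases hu with hu | hu
      · exact Or.inl (Be.smul hT hact hu.rev k)
      · exact Or.inr (Be.smul hT hact hu.rev k)
    have h2 := hkR (k * u) h1
    rw [SS_swap b a, SS_swap b a] at h2
    have h3 := relIndex_conj a b k u k⁻¹ 1 k⁻¹
    rw [mul_inv_cancel, mul_one] at h3
    rw [← h3, SS_comm, SS_comm a b k]
    exact h2
  set h' := k⁻¹ with hh'
  have b1 : Be T (h • a) (h • b) ((h * h') • a) ((h * h') • b) := by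
    rw [mul_smul, mul_smul]; exact Be.smul hT hact hk' h
  have b2 : Coh T a b (h * h') := Be.comp hT hab (A h) (A _) hh b1
  have l1 : SS a b 1 (h * h') ≤ SS a b 1 h := by
    intro s hs
    have := SS_le hT hact hab (g := 1) (g' := h) (g'' := h * h')
      (Or.inl ⟨b1, by simpa using coh_be.1 hh⟩) hs
    rw [mem_SS] at hs ⊢
    exact ⟨hs.1, this⟩
  refine ⟨h * h', b2, ?_, ?_, (hV.mono hhc).mono l1⟩
  · intro v hv
    have h1 : (SS a b 1 v).relIndex (SS a b 1 h) ≠ 0 := by
      refine hR v ?_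
      rcases hv with hv | hv
      · exact Or.inl (Be.comp hT (A h) (A _) (A v) b1 hv)
      · exact Or.inr (Be.comp hT (A h) (A _) (A v).symm b1 hv)
    exact fun h0 => h1 (Subgroup.relIndex_eq_zero_of_le_right l1 h0)
  · intro u hu
    have c1 : Be T (h⁻¹ • a) (h⁻¹ • b) a b := by
      have := Be.smul hT hact hh h⁻¹
      rwa [inv_smul_smul, inv_smul_smul] at this
    have l1 : SS a b h⁻¹ h' ≤ SS a b 1 h' := by
      intro s hs
      have := SS_le hT hact hab (g := h⁻¹) (g' := 1) (g'' := h')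
        (Or.inl ⟨by simpa using coh_be.1 hk', by simpa using c1⟩) hs
      rw [mem_SS] at hs ⊢
      exact ⟨this, hs.2⟩
    have h1 : (SS a b (h⁻¹ * u) h').relIndex (SS a b 1 h') ≠ 0 := by
      refine hL (h⁻¹ * u) ?_
      rw [mul_smul, mul_smul]
      rcases hu with hu | hu
      · exact Or.inl (Be.comp hT (hact _ _ _ (A u)) (A _) hab (Be.smul hT hact hu h⁻¹) c1)
      · exact Or.inr (Be.comp hT (hact _ _ _ (A u).symm) (A _) hab (Be.smul hT hact hu h⁻¹) c1)
    have h2 : (SS a b (h⁻¹ * u) h').relIndex (SS a b h⁻¹ h') ≠ 0 :=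
      fun h0 => h1 (Subgroup.relIndex_eq_zero_of_le_right l1 h0)
    have h3 := relIndex_conj a b h (h⁻¹ * u) h' h⁻¹ h'
    rw [mul_inv_cancel_left, mul_inv_cancel] at h3
    rw [h3]
    exact h2

include hT hact in
/-- a segment with virtually abelian stabiliser can be extended to one with coherent ends -/
theorem exists_start {a b : V} (hab : T.Adj a b) {p q g : G} (hp : Fac T a b p)
    (hq : Fac T b a q) (hV : VA (SS a b 1 g)) : ∃ c₀ : G, Coh T a b c₀ ∧ VA (SS a b 1 c₀) := by
  rcases edge_cases hT hab (hact g a b hab) with k | k | k | k | k | k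
  · refine ⟨p * q, fac_mul hT hact hab hp hq, hV.mono fun s hs => ?_⟩
    rw [mem_SS] at hs ⊢
    rw [k.1, k.2]
    simp only [one_smul] at hs ⊢
    exact ⟨hs.1, hs.1⟩
  · refine ⟨p * q, fac_mul hT hact hab hp hq, hV.mono fun s hs => ?_⟩
    rw [mem_SS] at hs ⊢
    rw [k.1, k.2]
    simp only [one_smul] at hs ⊢
    exact ⟨hs.1, hs.1.symm⟩
  · exact ⟨g, k, hV⟩
  · refine ⟨g⁻¹, (coh_inv hT hact).2 k, ?_⟩
    have := hV.conj g⁻¹
    rwa [SS_conj, mul_one, inv_mul_cancel, SS_comm] at this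
  · refine ⟨g * q, fac_mul hT hact hab k hq, hV.mono fun s hs => ?_⟩
    have hgq : Be T (g • b) (g • a) ((g * q) • a) ((g * q) • b) := by
      rw [mul_smul, mul_smul]; exact Be.smul hT hact hq g
    have := SS_le hT hact hab (g := 1) (g' := g) (g'' := g * q)
      (Or.inr (Or.inl ⟨hgq, by simpa using fac_be.1 k⟩)) hs
    rw [mem_SS] at hs ⊢
    exact ⟨hs.1, this⟩
  · refine ⟨p * g, fac_mul hT hact hab hp k, ?_⟩
    have hp' : Be T (p⁻¹ • a) (p⁻¹ • b) b a := by
      have := Be.smul hT hact hp p⁻¹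
      rwa [inv_smul_smul, inv_smul_smul] at this
    have hk : Be T b a (g • a) (g • b) := k
    have h1 : VA (SS a b p⁻¹ g) := hV.mono fun s hs => by
      have := SS_le hT hact hab (g := p⁻¹) (g' := 1) (g'' := g)
        (Or.inr (Or.inl ⟨by simpa using hk, by simpa using hp'⟩)) hs
      rw [mem_SS] at hs ⊢
      exact ⟨this, hs.2⟩
    have := h1.conj p
    rwa [SS_conj, mul_inv_cancel] at this

end Pool.Agent.Run7.h550.RV
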