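import Pool.Agent.Run7.h550.RV.Dyn2

/-!
# Vertex stabilisers which are convex cocompact and contain a rank one isometry
-/

set_option autoImplicit false

open Metric Set Filter Topology
open Pool.Agent.TH60.FP Pool.Agent.TH60.FP.Strip Pool.Agent.Y34.HB Pool.Agent.Y34.EL
open Pool.Agent.T6.H46.RR Pool.Agent.T6.H67.TA Pool.Agent.T6.H46.RC
open scoped Pointwise

namespace Pool.Agent.Run7.h550.RV

variable {X : Type} [MetricSpace X] {G : Type} [Group G] [MulAction G X]
variable {V : Type} {T : SimpleGraph V} (hT : T.IsTree) [MulAction G V]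
  (hact : ∀ (g : G) (u v : V), T.Adj u v → T.Adj (g • u) (g • v))

/-- the line bounds a half-plane in `B` -/
def HB (B : Set X) (c : ℝ → X) : Prop := ∃ H : ℝ × NNReal → X,
    (∀ p q : ℝ × NNReal, dist (H p) (H q) ^ 2 = (p.1 - q.1) ^ 2 + ((p.2 : ℝ) - q.2) ^ 2) ∧
    (∀ p : ℝ × NNReal, H p ∈ B) ∧ ∀ t : ℝ, H (t, 0) = c t

include hT in
lemma turn_be {x b y c c' : V} (hb' : D T b y = D T x y - 1)
    (hc : T.Adj y c) (hc' : D T c x = D T y x - 1) (hd : T.Adj y c') (hne : c' ≠ c) :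
    Be T x b y c' := by
  have h1 := adj_pm hT hd x
  rcases h1 with h1 | h1
  · unfold Be
    rw [D_comm x c', D_comm y x] at *
    omega
  · exact absurd (closer_unique hT hd h1 hc hc') hne

omit [MulAction G X] in
include hT hact in
lemma turn_dist {u w b : V} (hb : T.Adj u b) (hb' : D T b w = D T u w - 1) {q : G}
    (qu : q • u = u) (qb : q • b ≠ b) : D T w (q • w) = 2 * D T u w := by
  have hd : T.Adj u (q • b) := by have := hact q u b hb; rwa [qu] at this
  rcases adj_pm hT hd w with h1 | h1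
  · have h2 := D_smul hT hact q u w
    have h3 := D_smul hT hact q b w
    rw [qu] at h2
    have h4 := D_comm (T := T) w (q • b)
    have h5 := D_comm (T := T) w u
    have h6 := sep_edge hT (a := u) (b := q • b) (w := w) (u := q • w) (adj_D hd) (by omega)
      (by omega)
    omega
  · exact absurd (closer_unique hT hd h1 hb hb') qb

omit [MulAction G X] in
include hT hact in
lemma turn_coh {u w b l : V} (hb : T.Adj u b) (hb' : D T b w = D T u w - 1)
    (hl : T.Adj w l) (hl' : D T l u = D T w u - 1) {g m : G} (gu : g • u = u) (gb : g • b ≠ b)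
    (mw : m • w = w) (ml : m • l ≠ l) :
    Coh T u (g • b) (g * m) ∧ D T u ((g * m) • u) = 2 * D T u w := by
  have a1 : T.Adj u (g • b) := by have := hact g u b hb; rwa [gu] at this
  have a0 : T.Adj w (m • l) := by have := hact m w l hl; rwa [mw] at this
  have a2 : T.Adj (g • w) ((g * m) • l) := by rw [mul_smul]; exact hact g _ _ a0
  have a3 : T.Adj ((g * m) • u) ((g * m) • g • b) := hact _ _ _ a1
  have b1 : Be T u b w (m • l) := turn_be hT hb' hl hl' a0 ml
  have b2 : Be T u (g • b) (g • w) ((g * m) • l) := by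
    have := Be.smul hT hact b1 g
    rwa [gu, ← mul_smul g m l] at this
  have b3 : Be T w l u (g • b) := turn_be hT hl' hb hb' a1 gb
  have b4 : Be T (g • w) ((g * m) • l) ((g * m) • u) ((g * m) • g • b) := by
    have := Be.smul hT hact b3 (g * m)
    rwa [mul_smul g m w, mw] at this
  refine ⟨Be.comp hT a1 a2 a3 b2 b4, ?_⟩
  rw [mul_smul, ← D_smul hT hact g⁻¹ u, inv_smul_smul]
  have : g⁻¹ • u = u := by rw [inv_smul_eq_iff, gu]
  rw [this, D_comm u w]
  exact turn_dist hT hact hl hl' mw ml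

include hT hact in
lemma turn_rank_one (hG : Geo X G) (o : X) {u w b l : V} (hb : T.Adj u b)
    (hb' : D T b w = D T u w - 1) (hl : T.Adj w l) (hl' : D T l u = D T w u - 1) {g m : G}
    (gu : g • u = u) (gb : g • b ≠ b) (mw : m • w = w) (ml : m • l ≠ l)
    (hfin : {s : G | s • u = u ∧ s • w = w ∧ s • g • w = g • w}.Finite) :
    ∃ f : G, RankOne X f := by
  obtain ⟨hc, hd⟩ := turn_coh hT hact hb hb' hl hl' gu gb mw ml
  have a1 : T.Adj u (g • b) := by have := hact g u b hb; rwa [gu] at this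
  obtain ⟨hax, hfix⟩ := coh_axis hT hact a1 hc hc (g := 1) (one_smul _ _) (one_smul _ _)
  refine ⟨_, rank_one_of_finite hT hact hG o hax 2 (hfin.subset ?_)⟩
  rintro s ⟨e1, e2⟩
  obtain ⟨⟨x1, x2⟩, x3, x4, x5⟩ := hfix s e1 e2
  rw [one_mul] at x4 x5
  have hFw : (g * m) • w = g • w := by rw [mul_smul, mw]
  have d1 : D T (g • w) u = D T w u := by
    have := D_smul hT hact g w u
    rwa [gu] at this
  have d2 : D T (g • w) ((g * m) • u) = D T w u := by
    rw [← hFw, D_smul hT hact]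
  have d3 : D T w ((g * m)⁻¹ • u) = D T w u := by
    rw [← D_smul hT hact (g * m), smul_inv_smul, hFw, d1]
  have d4 : D T ((g * m)⁻¹ • u) u = D T u ((g * m) • u) := by
    rw [← D_smul hT hact (g * m), smul_inv_smul]
  have d5 := D_comm (T := T) w u
  refine ⟨x1, ?_, ?_⟩
  · refine fix_between hT hact (a := (g * m)⁻¹ • u) (b := u) ?_ e1 x1
    unfold P
    omega
  · refine fix_between hT hact (a := u) (b := (g * m) • u) ?_ x1 x4
    unfold P
    omega

include hT hact in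
lemma vg_case2 (hG : Geo X G) {u : V} {M : Subgroup G} (hM : ∀ s : G, s ∈ M ↔ s • u = u)
    (hmove : ∀ w, T.Adj u w → ∃ m : G, m • u = u ∧ m • w ≠ w) {B : Set X} (hB : CC M B) (k : M)
    {τ : ℝ} (hτ : 0 < τ) {c : ℝ → B} (hk : @Axis B _ M _ (bact hB) k τ c) (hHP : HP c = ∅)
    {h : G} (hne : u ≠ h • u)
    (hno : ∀ (s : M) (l : ℕ), 0 < l → (s * k * s⁻¹) ^ l ∉ IK M h) : ∃ f : G, RankOne X f := by
  have := hG.proper
  have := hG.isom
  let _ := bact hB
  have hGB := geo_sub hG hB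
  have := hGB.isom
  have := hGB.proper
  obtain ⟨o, ho⟩ := hB.ne
  obtain ⟨R, D₀, hP⟩ := pass_of_axis hGB.cn hτ hk hHP
  obtain ⟨b, hb, hb'⟩ := exists_closer hT hne
  obtain ⟨l, hl, hl'⟩ := exists_closer hT hne.symm
  obtain ⟨m₁, hm1, hm2⟩ := hmove (h⁻¹ • l) (by
    have := hact h⁻¹ (h • u) l hl
    rwa [inv_smul_smul] at this)
  have mw : (h * m₁ * h⁻¹) • h • u = h • u := by
    rw [mul_smul, mul_smul, inv_smul_smul, hm1]
  have ml : (h * m₁ * h⁻¹) • l ≠ l := by
    intro e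
    apply hm2
    rw [mul_smul, mul_smul] at e
    rw [eq_inv_smul_iff]
    exact e
  obtain ⟨m₀, hm0, hm0'⟩ := hmove b hb
  have fin : ∀ g : M, (g : G) • b ≠ b →
      {s : M | s ∈ IK M h ∧ g⁻¹ * s * g ∈ IK M h}.Finite → ∃ f : G, RankOne X f := by
    intro g gb hf
    refine turn_rank_one hT hact hG o hb hb' hl hl' ((hM _).1 g.2) gb mw ml ?_
    refine (hf.image (fun s : M => (s : G))).subset ?_
    rintro s ⟨s1, s2, s3⟩
    refine ⟨⟨s, (hM s).2 s1⟩, ⟨?_, ?_⟩, rfl⟩
    · rw [mem_IK, hM]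
      show (h⁻¹ * s * h) • u = u
      rw [mul_smul, mul_smul, inv_smul_eq_iff]
      exact s2
    · rw [mem_IK, hM]
      show (h⁻¹ * ((g : G)⁻¹ * s * g) * h) • u = u
      rw [mul_smul, mul_smul, mul_smul, mul_smul, inv_smul_eq_iff, inv_smul_eq_iff]
      exact s3
  by_cases hc : ∃ s : M, ((s * k * s⁻¹ : M) : G) • b ≠ b
  · obtain ⟨s, hs⟩ := hc
    obtain ⟨g₁, -, a₀, hfin⟩ := dyn' hGB hk hP (axis_conj hk s) (hP.smul s) (A₁ := IK M h)
      (A₂ := IK M h) (qc_IK hG hB h) (qc_IK hG hB h)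
      (fun j hj => by have := hno 1 j hj; simpa using this) (fun j hj => hno s j hj)
    by_cases h1 : (((s * k * s⁻¹) ^ a₀ * g₁ : M) : G) • b = b
    · by_cases h2 : (((s * k * s⁻¹) ^ (a₀ + 1) * g₁ : M) : G) • b = b
      · exfalso
        apply hs
        rw [pow_succ', mul_assoc, Subgroup.coe_mul, mul_smul, h1] at h2
        exact h2
      · exact fin _ h2 (hfin _ (Nat.le_succ _))
    · exact fin _ h1 (hfin _ le_rfl)
  · push Not at hc
    set n₀ : M := ⟨m₀, (hM _).2 hm0⟩ with hn₀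
    obtain ⟨g₁, hg₁, a₀, hfin⟩ := dyn' hGB hk hP hk hP (A₁ := IK M h)
      (A₂ := IK M (m₀ * h)) (qc_IK hG hB h) (qc_IK hG hB (m₀ * h))
      (fun j hj hmem => by
        refine hno n₀⁻¹ j hj ?_
        rw [mem_IK] at hmem ⊢
        have e : (n₀⁻¹ * k * n₀⁻¹⁻¹) ^ j = n₀⁻¹ * k ^ j * n₀ := by
          rw [inv_inv]
          have := conj_pow (i := j) (a := n₀⁻¹) (b := k)
          rw [inv_inv] at this
          exact this
        rw [e]
        have e2 : h⁻¹ * ((n₀⁻¹ * k ^ j * n₀ : M) : G) * h =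
            (m₀ * h)⁻¹ * ((k ^ j : M) : G) * (m₀ * h) := by
          rw [Subgroup.coe_mul, Subgroup.coe_mul, Subgroup.coe_inv]
          show h⁻¹ * (m₀⁻¹ * _ * m₀) * h = _
          group
        rw [e2]
        exact hmem)
      (fun j hj => by have := hno 1 j hj; simpa using this)
    refine fin (k ^ a₀ * g₁ * n₀) ?_ ((hfin _ le_rfl).subset ?_)
    · intro e
      -- `k` fixes `m₀ b`
      have h1 : (k : G) • m₀ • b = m₀ • b := by
        have := hc n₀⁻¹
        rw [inv_inv, Subgroup.coe_mul, Subgroup.coe_mul, Subgroup.coe_inv, mul_smul, mul_smul,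
          inv_smul_eq_iff] at this
        exact this
      have h2 : (k ^ a₀ * g₁ : M) ∈ Subgroup.zpowers k :=
        Subgroup.mul_mem _ (Subgroup.pow_mem _ (Subgroup.mem_zpowers k) _) hg₁
      obtain ⟨i, hi⟩ := Subgroup.mem_zpowers_iff.1 h2
      have h3 : ((k ^ i : M) : G) • m₀ • b = m₀ • b := by
        have h4 : (k : G) ∈ MulAction.stabilizer G (m₀ • b) := h1
        have h5 := Subgroup.zpow_mem _ h4 i
        rw [Subgroup.coe_zpow]
        exact h5
      rw [Subgroup.coe_mul, ← hi, mul_smul] at e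
      have h6 : ((k ^ i : M) : G) • m₀ • b = b := e
      rw [h3] at h6
      exact hm0' h6
    · rintro s ⟨s1, s2⟩
      refine ⟨s1, ?_⟩
      rw [mem_IK] at s2 ⊢
      have e2 : h⁻¹ * (((k ^ a₀ * g₁ * n₀)⁻¹ * s * (k ^ a₀ * g₁ * n₀) : M) : G) * h =
          (m₀ * h)⁻¹ * (((k ^ a₀ * g₁)⁻¹ * s * (k ^ a₀ * g₁) : M) : G) * (m₀ * h) := by
        have e3 : ((k ^ a₀ * g₁ * n₀)⁻¹ * s * (k ^ a₀ * g₁ * n₀) : M) =
            n₀⁻¹ * ((k ^ a₀ * g₁)⁻¹ * s * (k ^ a₀ * g₁)) * n₀ := by group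
        rw [e3, Subgroup.coe_mul, Subgroup.coe_mul M n₀⁻¹, Subgroup.coe_inv]
        show h⁻¹ * (m₀⁻¹ * _ * m₀) * h = _
        group
      rw [e2] at s2
      exact s2

omit [MulAction G X] in
include hT hact in
lemma coh_pow' {a b : V} (hab : T.Adj a b) {F : G} (hF : Coh T a b F) (n : ℕ) :
    Coh T a b (F ^ (n + 1)) := by
  induction n with
  | zero => rw [zero_add, pow_one]; exact hF
  | succ n ih =>
    have h1 : Be T (F ^ (n + 1) • a) (F ^ (n + 1) • b) (F ^ (n + 1 + 1) • a)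
        (F ^ (n + 1 + 1) • b) := by
      have := Be.smul hT hact (show Be T a b (F • a) (F • b) from hF) (F ^ (n + 1))
      rwa [← mul_smul _ _ a, ← mul_smul _ _ b, ← pow_succ] at this
    exact Be.comp hT hab (hact _ _ _ hab) (hact _ _ _ hab) ih h1

include hT hact in
lemma not_cocompact' (hG : Geo X G) {K : Subgroup G} {B : Set X} (hB : CC K B) {a b : V}
    (hab : T.Adj a b) (hK : ∀ s : G, s ∈ K ↔ s • a = a) {F : G}
    (hF : Coh T a b F) : ¬ ∀ x, x ∈ B := by
  intro hall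
  have := hG.isom
  obtain ⟨o, ho⟩ := hB.ne
  obtain ⟨D, hD0, hD⟩ := cc_near hG hB ho
  have hFs := finite_short hG o D
  have h1 : ∀ n : ℕ, ∃ g ∈ K, dist o ((g⁻¹ * F ^ n) • o) ≤ D := by
    intro n
    obtain ⟨g, hg, hgd⟩ := hD (F ^ n • o) (hall _)
    refine ⟨g, hg, ?_⟩
    rw [mul_smul, ← dist_smul g, smul_inv_smul, dist_comm]
    exact hgd
  choose g hg hgd using h1
  have hninj : ¬ Function.Injective (fun n : ℕ => (g n)⁻¹ * F ^ n) := by
    intro hinj
    have : (univ : Set ℕ).Finite :=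
      Set.Finite.of_injOn (f := fun n : ℕ => (g n)⁻¹ * F ^ n) (fun n _ => hgd n)
        (hinj.injOn) hFs
    exact Set.infinite_univ this
  rw [Function.Injective] at hninj
  push Not at hninj
  have key : ∀ m n : ℕ, m < n → (g m)⁻¹ * F ^ m = (g n)⁻¹ * F ^ n → False := by
    intro m n hmn he
    have e1 : F ^ (n - m) ∈ K := by
      have e2 : F ^ n = F ^ (n - m) * F ^ m := by
        rw [← pow_add]; congr 1; omega
      rw [e2] at he
      have e3 : F ^ (n - m) = g n * (g m)⁻¹ := by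
        have : (g m)⁻¹ = (g n)⁻¹ * F ^ (n - m) := by
          have := congrArg (· * (F ^ m)⁻¹) he
          simpa [mul_assoc] using this
        rw [this]; group
      rw [e3]
      exact K.mul_mem (hg n) (K.inv_mem (hg m))
    obtain ⟨j, hj⟩ : ∃ j, n - m = j + 1 := ⟨n - m - 1, by omega⟩
    rw [hj] at e1
    have h2 := coh_pow' hT hact hab hF j
    have h3 := (hK _).1 e1
    have h4 := D_smul hT hact (F ^ (j + 1)) a b
    have h5 := adj_D hab
    unfold Coh at h2
    rw [h3] at h2 h4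
    rw [D_comm b a] at h2
    omega
  obtain ⟨m, n, he, hne⟩ := hninj
  rcases lt_or_gt_of_ne hne with h | h
  · exact key m n h he
  · exact key n m h he.symm

/-- the stabiliser of `u` and `h u` acts cocompactly on the points of `B` near `h B` -/
lemma cc_near_translate (hG : Geo X G) {M A : Subgroup G} {B : Set X} (hB : CC M B) {h : G}
    (hA : ∀ s : G, s ∈ A ↔ s ∈ M ∧ h⁻¹ * s * h ∈ M) {R : ℝ}
    (hne : ∃ x ∈ B, ph B h x ≤ R) : CC A {x | x ∈ B ∧ ph B h x ≤ R} := by
  have := hG.proper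
  have := hG.isom
  obtain ⟨o, ho⟩ := hB.ne
  refine ⟨?_, ?_, ?_, ?_, ?_⟩
  · obtain ⟨x, hx, hx'⟩ := hne
    exact ⟨x, hx, hx'⟩
  · have hcont : Continuous (ph B h) :=
      (continuous_infDist_pt B).comp (isometry_smul X h⁻¹).continuous
    exact hB.closed.inter (isClosed_le hcont continuous_const)
  · rintro p ⟨hp, hp'⟩ q ⟨hq, hq'⟩ m hm
    refine ⟨hB.conv p hp q hq m hm, ?_⟩
    have h1 := ph_convex hG.cn hB h p q m hm
    rcases eq_or_lt_of_le (dist_nonneg (x := p) (y := q)) with h0 | h0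
    · have h2 : dist p m = 0 := by
        have := dist_nonneg (x := p) (y := m)
        have := dist_nonneg (x := m) (y := q)
        linarith
      rw [← dist_eq_zero.1 h2]
      exact hp'
    · have h2 : dist p q * ph B h m ≤ dist p q * R := by
        refine h1.trans ?_
        have h3 := mul_le_mul_of_nonneg_left hp' (dist_nonneg (x := m) (y := q))
        have h4 := mul_le_mul_of_nonneg_left hq' (dist_nonneg (x := p) (y := m))
        have h5 : dist p q * R = dist m q * R + dist p m * R := by rw [← hm]; ring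
        linarith
      exact le_of_mul_le_mul_left h2 h0
  · rintro g hg x ⟨hx, hx'⟩
    obtain ⟨g1, g2⟩ := (hA g).1 hg
    exact ⟨hB.inv g g1 x hx, by rw [ph_inv hB g2]; exact hx'⟩
  · obtain ⟨R₁, hR₁⟩ := coarse hG hB ho h R
    refine ⟨closedBall o R₁, isCompact_closedBall o R₁, ?_⟩
    rintro x ⟨hx, hx'⟩
    obtain ⟨a, ha, hd⟩ := hR₁ x hx hx'
    refine ⟨(a : G)⁻¹, A.inv_mem ((hA _).2 ⟨a.2, mem_IK.1 ha⟩), ?_⟩
    rw [mem_closedBall, ← dist_smul (a : G), smul_inv_smul]
    exact hd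

include hT hact in
/-- **Main theorem for vertex stabilisers** -/
theorem vg_main (hG : Geo X G) (hGC : GC X) {u : V} {M : Subgroup G}
    (hM : ∀ s : G, s ∈ M ↔ s • u = u)
    (hmove : ∀ w, T.Adj u w → ∃ m : G, m • u = u ∧ m • w ≠ w) (hu : ∃ g : G, g • u ≠ u)
    {B : Set X} (hB : CC M B) {k : G} (hkM : k ∈ M) {τ : ℝ} (hτ : 0 < τ) {c : ℝ → X}
    (hci : Isometry c) (hcB : ∀ t, c t ∈ B) (hkc : ∀ t, k • c t = c (t + τ)) (hno : ¬ HB B c) :
    (∃ g : G, RankOne X g) ∨
      ∃ (h : G) (B₀ : Set X), B₀ ⊆ B ∧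
      CC (MulAction.stabilizer G u ⊓ MulAction.stabilizer G (h • u)) B₀ ∧ Nontrivial B₀ ∧
      ∃ (Z : Type) (_ : MetricSpace Z) (_ : Nontrivial Z) (e : X ≃ Z × B₀),
      ∀ x x' : X, dist x x' ^ 2 = dist (e x).1 (e x').1 ^ 2 + dist (e x).2 (e x').2 ^ 2 := by
  have := hG.proper
  have := hG.isom
  have hax : @Axis B _ M _ (bact hB) ⟨k, hkM⟩ τ (fun t => ⟨c t, hcB t⟩) :=
    ⟨Isometry.of_dist_eq fun s t => hci.dist_eq s t, fun t => Subtype.ext (hkc t)⟩
  have hHP : HP (fun t => (⟨c t, hcB t⟩ : B)) = ∅ := by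
    rw [eq_empty_iff_forall_notMem]
    rintro H ⟨h1, h2⟩
    exact hno ⟨fun z => H z, h1, fun z => (H z).2, fun t => congrArg Subtype.val (h2 t)⟩
  by_cases hall : ∀ g : G, Bd B g
  · right
    obtain ⟨B₀, hsub, h₀, h1 | h1⟩ := split_of_bd hG hGC hB hall
    · exfalso
      obtain ⟨g₀, hg₀⟩ := hu
      have hne : u ≠ g₀ • u := fun e => hg₀ e.symm
      obtain ⟨b, hb, hb'⟩ := exists_closer hT hne
      obtain ⟨l, hl, hl'⟩ := exists_closer hT hne.symm
      obtain ⟨m₁, hm1, hm2⟩ := hmove (g₀⁻¹ • l) (by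
        have := hact g₀⁻¹ (g₀ • u) l hl
        rwa [inv_smul_smul] at this)
      have mw : (g₀ * m₁ * g₀⁻¹) • g₀ • u = g₀ • u := by
        rw [mul_smul, mul_smul, inv_smul_smul, hm1]
      have ml : (g₀ * m₁ * g₀⁻¹) • l ≠ l := by
        intro e
        apply hm2
        rw [mul_smul, mul_smul] at e
        rw [eq_inv_smul_iff]
        exact e
      obtain ⟨m₀, hm0, hm0'⟩ := hmove b hb
      obtain ⟨hF, -⟩ := turn_coh hT hact hb hb' hl hl' hm0 hm0' mw ml
      have a1 : T.Adj u (m₀ • b) := by have := hact m₀ u b hb; rwa [hm0] at this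
      exact not_cocompact' hT hact hG h₀ a1 hM hF h1
    · have e : M = MulAction.stabilizer G u ⊓ MulAction.stabilizer G ((1 : G) • u) := by
        ext s
        rw [hM, Subgroup.mem_inf, one_smul, MulAction.mem_stabilizer_iff, and_self_iff]
      refine ⟨1, B₀, hsub, ?_, nontrivial_of_axis hB h₀ hsub ⟨k, hkM⟩ hτ hax, h1⟩
      rw [← e]
      exact h₀
  push Not at hall
  obtain ⟨h, hh⟩ := hall
  have hne : u ≠ h • u := by
    intro e
    exact hh (Bd.of_mem hB ((hM h).2 e.symm))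
  by_cases hI : ∃ (s : M) (l : ℕ), 0 < l ∧ (s * ⟨k, hkM⟩ * s⁻¹) ^ l ∈ IK M h
  · obtain ⟨s, l, hl0, hin⟩ := hI
    obtain ⟨b, hb, hb'⟩ := exists_closer hT hne
    obtain ⟨l', hl, hl'⟩ := exists_closer hT hne.symm
    obtain ⟨m₁, hm1, hm2⟩ := hmove (h⁻¹ • l') (by
      have := hact h⁻¹ (h • u) l' hl
      rwa [inv_smul_smul] at this)
    have mw : (h * m₁ * h⁻¹) • h • u = h • u := by
      rw [mul_smul, mul_smul, inv_smul_smul, hm1]
    have ml : (h * m₁ * h⁻¹) • l' ≠ l' := by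
      intro e
      apply hm2
      rw [mul_smul, mul_smul] at e
      rw [eq_inv_smul_iff]
      exact e
    obtain ⟨m₀, hm0, hm0'⟩ := hmove b hb
    set A : Subgroup G := MulAction.stabilizer G u ⊓ MulAction.stabilizer G (h • u) with hAdef
    have hA' : ∀ g : G, g ∈ A ↔ g • u = u ∧ g • h • u = h • u := by
      intro g
      rw [hAdef, Subgroup.mem_inf, MulAction.mem_stabilizer_iff, MulAction.mem_stabilizer_iff]
    have hA : ∀ g : G, g ∈ A ↔ g ∈ M ∧ h⁻¹ * g * h ∈ M := by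
      intro g
      rw [hA', hM, hM, mul_smul, mul_smul, inv_smul_eq_iff]
    -- the axis
    set k' : G := ((s : G) * k * (s : G)⁻¹) ^ l with hk'
    set c' : ℝ → X := fun t => (s : G) • c t with hc'
    have hax0 : Axis ((s : G) * k * (s : G)⁻¹) τ c' := axis_conj (K := G) ⟨hci, hkc⟩ (s : G)
    have hax1 : Axis k' (l * τ) c' := by
      refine ⟨hax0.1, fun t => ?_⟩
      have := axis_zpow hax0 (l : ℤ) t
      rw [zpow_natCast] at this
      rw [hk', this]
      push_cast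
      rfl
    have hlτ : 0 < (l : ℝ) * τ := mul_pos (by exact_mod_cast hl0) hτ
    have hkA : k' ∈ A := by
      rw [hA]
      constructor
      · exact M.pow_mem (M.mul_mem (M.mul_mem s.2 hkM) (M.inv_mem s.2)) l
      · exact hin
    have hcB' : ∀ t, c' t ∈ B := fun t => hB.inv _ s.2 _ (hcB t)
    set R₀ : ℝ := ph B h (c' 0) + l * τ with hR₀
    have hph : ∀ t, ph B h (c' t) ≤ R₀ := by
      intro t
      set j : ℤ := ⌊t / (l * τ)⌋ with hj
      have h3 := Int.floor_le (t / (l * τ))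
      have h4 := Int.lt_floor_add_one (t / (l * τ))
      rw [le_div_iff₀ hlτ] at h3
      rw [div_lt_iff₀ hlτ] at h4
      have h5 := axis_zpow hax1 j (t - j * (l * τ))
      rw [sub_add_cancel] at h5
      rw [← h5, ph_inv hB ((hA _).1 (A.zpow_mem hkA j)).2]
      have h6 := ph_lip B h (c' (t - j * (l * τ))) (c' 0)
      rw [hax1.1.dist_eq, Real.dist_eq, sub_zero, abs_le] at h6
      have h7 : |t - j * (l * τ)| ≤ l * τ := by
        rw [abs_le]
        constructor <;> nlinarith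
      linarith [h6.2]
    set B' : Set X := {x | x ∈ B ∧ ph B h x ≤ R₀} with hB'def
    have hB' : CC A B' := cc_near_translate hG hB hA ⟨c' 0, hcB' 0, hph 0⟩
    have hcB'' : ∀ t, c' t ∈ B' := fun t => ⟨hcB' t, hph t⟩
    have hax2 : @Axis B' _ A _ (bact hB') ⟨k', hkA⟩ (l * τ) (fun t => ⟨c' t, hcB'' t⟩) :=
      ⟨Isometry.of_dist_eq fun s t => hax1.1.dist_eq s t, fun t => Subtype.ext (hax1.2 t)⟩
    have hHP2 : HP (fun t => (⟨c' t, hcB'' t⟩ : B')) = ∅ := by
      rw [eq_empty_iff_forall_notMem]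
      rintro H ⟨h1, h2⟩
      refine hno ⟨fun z => (s : G)⁻¹ • (H z : X), fun p q => ?_, fun z => ?_, fun t => ?_⟩
      · rw [dist_smul]; exact h1 p q
      · exact hB.inv _ (M.inv_mem s.2) _ (H z).2.1
      · have h3 : (H (t, 0) : X) = (s : G) • c t := congrArg Subtype.val (h2 t)
        show (s : G)⁻¹ • (H (t, 0) : X) = c t
        rw [h3, inv_smul_smul]
    have hq := turn_dist hT hact hb hb' hm0 hm0'
    have hr := turn_dist hT hact hl hl' mw ml
    have e1 := D_self (T := T) u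
    have e2 := D_self (T := T) (h • u)
    have e3 := D_comm (T := T) u (h • u)
    rcases seg_main' hT hact hG hGC hne hA' hB' ⟨k', hkA⟩ hlτ hax2 hHP2 (q := m₀)
      (r := h * m₁ * h⁻¹) (by rw [hm0, hq, e1, zero_add]) (by rw [mw, hr, e2, zero_add, e3])
      with h1 | ⟨B₀, hsub, h₀, hn, hZ⟩
    · exact Or.inl h1
    · exact Or.inr ⟨h, B₀, fun x hx => (hsub hx).1, h₀, hn, hZ⟩
  · push Not at hI
    exact Or.inl (vg_case2 hT hact hG hM hmove hB ⟨k, hkM⟩ hτ hax hHP hne hI)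

end Pool.Agent.Run7.h550.RV
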